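import Mathlib
import Pool.Agent.Helper617.RM.HLDefs

/-!
Finite sums and the principle thin-HT inside a structure for second-order arithmetic.
-/

namespace Pool.Agent.H965Z.Thin

open Pool.Agent.Helper617.RM

universe u

variable (N : L2Structure.{u})

/-- `s` is the sum of the elements of the finite (that is, bounded) set `F`, computed in the
structure: the function `σ` of the structure gives the partial sums
`σ n = ∑ {i ∈ F : i < n}`, and `s = σ b` for a strict upper bound `b` of `F`. -/
def IsSum (F : Set N.M) (s : N.M) : Prop :=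
  ∃ σ : N.M → N.M, FunIn N σ ∧ σ N.zero = N.zero ∧
    (∀ i, i ∈ F → σ (N.add i N.one) = N.add (σ i) i) ∧
    (∀ i, i ∉ F → σ (N.add i N.one) = σ i) ∧
    ∃ b, (∀ x ∈ F, N.lt x b) ∧ s = σ b

/-- `FS(S)`: the sums of the nonempty finite subsets `F` of `S` that exist in the structure. -/
def FS (S : Set N.M) : Set N.M :=
  {s | ∃ F ∈ N.Sets, F.Nonempty ∧ F ⊆ S ∧ IsSum N F s}

/-- The principle thin-HT in the structure: for every function `c` of the structure there is an
infinite set `S` of the structure such that `FS(S)` is thin for `c`. -/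
def ThinHT : Prop :=
  ∀ c : N.M → N.M, FunIn N c →
    ∃ S ∈ N.Sets, ¬ IsFin N S ∧ ∃ i, ∀ s ∈ FS N S, c s ≠ i

end Pool.Agent.H965Z.Thin
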