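import Mathlib
import Pool.Agent.H645R2.R.All

namespace Pool.Agent.H965Z.Thin

open Pool.Agent.Helper617.RM Pool.Agent.H645R2.R

universe u

set_option linter.unusedSectionVars false
set_option linter.unusedVariables false
set_option linter.unusedTactic false
set_option linter.unreachableTactic false

variable {N : L2Structure.{u}} [IsModelRCA0 N]

/-- binary functions of the model -/
def GF2 (f : N.M → N.M → N.M) : Prop := D1 (fun v => v 0 = f (v 1) (v 2))

theorem d1_s1 {R : Ctx N → Prop} (h : D1 R) : S1 R := h.1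

theorem d1_p1 {R : Ctx N → Prop} (h : D1 R) : S1 (fun v => ¬ R v) := h.2

theorem dg_app2 {f : N.M → N.M → N.M} (hf : GF2 f) {g g' : Ctx N → N.M} (hg : DG g)
    (hg' : DG g') : DG (fun v => f (g v) (g' v)) :=
  D1.app3 (R := fun a b c => a = f b c) hf (DG.var 0) hg.tail hg'.tail

theorem d1_app4 {R : N.M → N.M → N.M → N.M → Prop}
    (hR : D1 (fun v => R (v 0) (v 1) (v 2) (v 3)))
    {g g' g'' g''' : Ctx N → N.M} (hg : DG g) (hg' : DG g') (hg'' : DG g'') (hg''' : DG g''') :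
    D1 (fun v => R (g v) (g' v) (g'' v) (g''' v)) := by
  refine D1.substF (P := fun v x => R x (g' v) (g'' v) (g''' v)) ?_ hg
  refine D1.substF (P := fun v x => R (v 0) x (g'' (tail v)) (g''' (tail v))) ?_ hg'.tail
  refine D1.substF (P := fun v x => R (v 1) (v 0) x (g''' (tail (tail v)))) ?_ hg''.tail.tail
  refine D1.substF (P := fun v x => R (v 2) (v 1) (v 0) x) ?_ hg'''.tail.tail.tail
  exact D1.comp (R := fun v => R (v 0) (v 1) (v 2) (v 3)) hR
    (g := fun v => cons (v 3) (cons (v 2) (cons (v 1) (cons (v 0) v))))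
    (CM.cons (Tm.var 3) (CM.cons (Tm.var 2) (CM.cons (Tm.var 1) (CM.cons (Tm.var 0) CM.id))))

theorem dg_el {g g' : Ctx N → N.M} (hg : DG g) (hg' : DG g') : DG (fun v => el (g v) (g' v)) :=
  DG.op2 (f := fun a b => el a b) (D0.eq (Tm.var 0) ((Tm.var 1).el (Tm.var 2))) hg hg'

theorem d1_dvd {g g' : Ctx N → N.M} (hg : DG g) (hg' : DG g') : D1 (fun v => g v ∣ g' v) :=
  D1.app2 (R := fun a b => a ∣ b) (D1.of (D0.dvd (Tm.var 0) (Tm.var 1))) hg hg'

open Classical in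
/-- indicator -/
noncomputable def ind (p : Prop) : N.M := if p then 1 else 0

theorem ind_pos {p : Prop} (h : p) : (ind p : N.M) = 1 := by unfold ind; rw [if_pos h]

theorem ind_neg {p : Prop} (h : ¬ p) : (ind p : N.M) = 0 := by unfold ind; rw [if_neg h]

theorem ind_congr {p q : Prop} (h : p ↔ q) : (ind p : N.M) = ind q := by rw [propext h]

theorem ind_le (p : Prop) : (ind p : N.M) ≤ 1 := by
  by_cases h : p
  · rw [ind_pos h]
  · rw [ind_neg h]; exact zero_le' _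

theorem dg_ind {R : Ctx N → Prop} (hR : D1 R) : DG (fun v => (ind (R v) : N.M)) := by
  refine D1.congr (R := fun w => (R (tail w) ∧ w 0 = 1) ∨ (¬ R (tail w) ∧ w 0 = 0)) ?_ ?_
  · exact (hR.tail.and (D1.eq (DG.var 0) (DG.const 1))).or
      (hR.tail.not.and (D1.eq (DG.var 0) (DG.const 0)))
  · intro w
    by_cases h : R (tail w)
    · show _ ↔ w 0 = ind (R (tail w))
      rw [ind_pos h]; simp [h]
    · show _ ↔ w 0 = ind (R (tail w))
      rw [ind_neg h]; simp [h]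

theorem strong_S1 {P : N.M → Prop} (hP : S1 (fun v => P (v 0)))
    (h : ∀ n, (∀ m, m < n → P m) → P n) (n : N.M) : P n := by
  have key : ∀ b : N.M, ∀ m, m < b → P m := by
    intro b
    refine ind_S1 (P := fun b => ∀ m, m < b → P m) ?_ ?_ ?_ b
    · exact S1.ball (P := fun v x => P x) (Tm.var 0) hP
    · intro m hm; exact absurd hm (not_lt_of_ge (zero_le' m))
    · intro b ih m hm
      rcases lt_or_eq_of_le (le_of_lt1 hm) with h1 | rfl
      · exact ih m h1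
      · exact h m ih
  exact key (n + 1) n (lt1 n)

theorem gf_of_rel {R : N.M → N.M → Prop} (hR : D1 (fun v => R (v 0) (v 1)))
    (hex : ∀ x, ∃ y, R x y) (hu : ∀ x y y', R x y → R x y' → y = y') :
    ∃ f : N.M → N.M, GF f ∧ ∀ x, R x (f x) := by
  choose f hf using hex
  refine ⟨f, GF.graph (hR.congr fun v => ⟨fun h => hu _ _ _ h (hf _), fun h => h ▸ hf _⟩), hf⟩

theorem gf2_of_rel {R : N.M → N.M → N.M → Prop} (hR : D1 (fun v => R (v 0) (v 1) (v 2)))
    (hex : ∀ x y, ∃ z, R x y z) (hu : ∀ x y z z', R x y z → R x y z' → z = z') :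
    ∃ f : N.M → N.M → N.M, GF2 f ∧ ∀ x y, R x y (f x y) := by
  choose f hf using hex
  refine ⟨f, ?_, hf⟩
  have h1 : D1 (fun v : Ctx N => R (v 1) (v 2) (v 0)) :=
    D1.app3 hR (DG.var 1) (DG.var 2) (DG.var 0)
  exact h1.congr fun v => ⟨fun h => hu _ _ _ _ h (hf _ _), fun h => h ▸ hf _ _⟩

theorem exists_least {R : N.M → N.M → Prop} (hR : D1 (fun v => R (v 0) (v 1)))
    (hex : ∀ x, ∃ y, R x y) :
    ∃ f : N.M → N.M, GF f ∧ ∀ x, R x (f x) ∧ ∀ y, y < f x → ¬ R x y := by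
  refine gf_of_rel (R := fun x y => R x y ∧ ∀ y', y' < y → ¬ R x y') ?_ ?_ ?_
  · refine D1.and hR (D1.ball (DG.var 1) (D1.not ?_))
    exact D1.app2 hR (DG.var 1) (DG.var 0)
  · intro x
    obtain ⟨y, hy⟩ := hex x
    obtain ⟨n, _, h1, h2⟩ := lnp_S1 (P := fun y => R x y)
      (D1.app2 hR (DG.const x) (DG.var 0)).1 y hy
    exact ⟨n, h1, h2⟩
  · rintro x y y' ⟨h1, h2⟩ ⟨h3, h4⟩
    rcases lt_trichotomy y y' with h | h | h
    · exact absurd h1 (h4 y h)
    · exact h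
    · exact absurd h3 (h2 y' h)

/-- the greatest element below a bound -/
theorem exists_greatest {P : N.M → Prop} (hP : D1 (fun v => P (v 0))) (b a : N.M) (ha : a < b)
    (hPa : P a) : ∃ z, a ≤ z ∧ z < b ∧ P z ∧ ∀ z', z < z' → z' < b → ¬ P z' := by
  have key : ∀ b : N.M, a < b → ∃ z, z < b ∧ (a ≤ z ∧ (P z ∧ ∀ z', z' < b → z < z' → ¬ P z')) := by
    intro b
    refine ind_S1 (P := fun b => a < b → ∃ z, z < b ∧ (a ≤ z ∧
      (P z ∧ ∀ z', z' < b → z < z' → ¬ P z'))) ?_ ?_ ?_ b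
    · refine d1_s1 ?_
      (repeat' (first | assumption | refine D1.app1 hP ?_ | exact DG.var _ | refine DG.add ?_ ?_ | refine DG.mul ?_ ?_ | refine DG.pr ?_ ?_ | refine dg_el ?_ ?_ | exact DG.const _ | refine DG.app (by assumption) ?_ | refine dg_app2 (by assumption) ?_ ?_ | refine dg_ind ?_ | refine D1.and ?_ ?_ | refine D1.or ?_ ?_ | refine D1.ball ?_ ?_ | refine D1.bex ?_ ?_ | refine D1.iff ?_ ?_ | refine D1.imp ?_ ?_ | refine D1.not ?_ | refine D1.eq ?_ ?_ | refine D1.lt ?_ ?_ | refine D1.le ?_ ?_ | refine d1_dvd ?_ ?_ | refine D1.MemC ?_ ?_ | refine D1.mem ?_ (by assumption) | exact D1.const _))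
    · intro h; exact absurd h (not_lt_of_ge (zero_le' a))
    · intro b ih hb
      by_cases hPb : P b
      · exact ⟨b, lt1 b, le_of_lt1 hb, hPb, fun z' h1 h2 => absurd (le_of_lt1 h1) (not_le_of_gt h2)⟩
      · rcases lt_or_eq_of_le (le_of_lt1 hb) with h | h
        · obtain ⟨z, h1, h2, h3, h4⟩ := ih h
          refine ⟨z, h1.trans (lt1 b), h2, h3, fun z' h5 h6 => ?_⟩
          rcases lt_or_eq_of_le (le_of_lt1 h5) with h7 | h7
          · exact h4 z' h7 h6
          · rw [h7]; exact hPb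
        · rw [← h] at hPb; exact absurd hPa hPb
  obtain ⟨z, h1, h2, h3, h4⟩ := key b ha
  exact ⟨z, h2, h1, h3, fun z' a1 a2 => h4 z' a2 a1⟩

/-- a bounded function attains its maximum on a final segment -/
theorem exists_max {f : N.M → N.M} (hf : GF f) (a y0 : N.M) (h : ∀ m, a ≤ m → f m ≤ y0) :
    ∃ m0, a ≤ m0 ∧ ∀ m, a ≤ m → f m ≤ f m0 := by
  obtain ⟨y, _, h1, h2⟩ := lnp_P1 (P := fun y => ∀ m, a ≤ m → f m ≤ y) (by
    refine S1.congr (R := fun v => ∃ m, a ≤ m ∧ v 0 < f m) ?_ fun v => ?_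
    · refine S1.ex (d1_s1 ?_)
      (repeat' (first | assumption | exact DG.var _ | refine DG.add ?_ ?_ | refine DG.mul ?_ ?_ | refine DG.pr ?_ ?_ | refine dg_el ?_ ?_ | exact DG.const _ | refine DG.app (by assumption) ?_ | refine dg_app2 (by assumption) ?_ ?_ | refine dg_ind ?_ | refine D1.and ?_ ?_ | refine D1.or ?_ ?_ | refine D1.ball ?_ ?_ | refine D1.bex ?_ ?_ | refine D1.iff ?_ ?_ | refine D1.imp ?_ ?_ | refine D1.not ?_ | refine D1.eq ?_ ?_ | refine D1.lt ?_ ?_ | refine D1.le ?_ ?_ | refine d1_dvd ?_ ?_ | refine D1.MemC ?_ ?_ | refine D1.mem ?_ (by assumption) | exact D1.const _))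
    · push Not; rfl) y0 h
  rcases eq_zero_or_succ y with rfl | ⟨y', rfl⟩
  · exact ⟨a, le_rfl, fun m hm => (h1 m hm).trans (zero_le' _)⟩
  · have := h2 y' (lt1 y')
    push Not at this
    obtain ⟨m0, h3, h4⟩ := this
    exact ⟨m0, h3, fun m hm => (h1 m hm).trans (succ_le' h4)⟩

/-- recursion with a parameter -/
theorem recur2 (pd : N.M → N.M) (st : N.M → N.M → N.M → N.M) (hpd : GF pd)
    (hst : D1 (fun v => v 0 = st (v 1) (v 2) (v 3))) (hlt : ∀ n, 0 < n → pd n < n) :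
    ∃ Φ : N.M → N.M → N.M, GF2 Φ ∧ (∀ w, Φ w 0 = 0) ∧
      ∀ w n, 0 < n → Φ w n = st w n (Φ w (pd n)) := by
  classical
  have hbd : ∀ w n : N.M, w < pr w n + 1 ∧ n < pr w n + 1 := fun w n =>
    ⟨lt1_of_le (fst_le_pr w n), lt1_of_le (snd_le_pr w n)⟩
  obtain ⟨PD, hPD, hPDs⟩ := gf_of_rel (R := fun r y =>
      (∃ w, w < r + 1 ∧ ∃ n, n < r + 1 ∧ (r = pr w n ∧ (0 < n ∧ y = pr w (pd n)))) ∨
      ((¬ ∃ w, w < r + 1 ∧ ∃ n, n < r + 1 ∧ (r = pr w n ∧ 0 < n)) ∧ y = 0)) (by (repeat' (first | assumption | exact DG.var _ | refine DG.add ?_ ?_ | refine DG.mul ?_ ?_ | refine DG.pr ?_ ?_ | refine dg_el ?_ ?_ | exact DG.const _ | refine DG.app (by assumption) ?_ | refine dg_app2 (by assumption) ?_ ?_ | refine dg_ind ?_ | refine D1.and ?_ ?_ | refine D1.or ?_ ?_ | refine D1.ball ?_ ?_ | refine D1.bex ?_ ?_ | refine D1.iff ?_ ?_ | refine D1.imp ?_ ?_ | refine D1.not ?_ | refine D1.eq ?_ ?_ | refine D1.lt ?_ ?_ | refine D1.le ?_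 ?_ | refine d1_dvd ?_ ?_ | refine D1.MemC ?_ ?_ | refine D1.mem ?_ (by assumption) | exact D1.const _)))
    (by
      intro r
      by_cases h : ∃ w, w < r + 1 ∧ ∃ n, n < r + 1 ∧ (r = pr w n ∧ 0 < n)
      · obtain ⟨w, h1, n, h2, h3, h4⟩ := h
        exact ⟨_, Or.inl ⟨w, h1, n, h2, h3, h4, rfl⟩⟩
      · exact ⟨0, Or.inr ⟨h, rfl⟩⟩)
    (by
      rintro r y y' (⟨w, h1, n, h2, h3, h4, h5⟩ | ⟨h1, h2⟩)
        (⟨w', h1', n', h2', h3', h4', h5'⟩ | ⟨h1', h2'⟩)
      · obtain ⟨e1, e2⟩ := pr_inj (h3.symm.trans h3')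
        rw [h5, h5', e1, e2]
      · exact absurd ⟨w, h1, n, h2, h3, h4⟩ h1'
      · exact absurd ⟨w', h1', n', h2', h3', h4'⟩ h1
      · rw [h2, h2'])
  obtain ⟨ST, hST, hSTs⟩ := gf2_of_rel (R := fun r x y =>
      (∃ w, w < r + 1 ∧ ∃ n, n < r + 1 ∧ (r = pr w n ∧ (0 < n ∧ y = st w n x))) ∨
      ((¬ ∃ w, w < r + 1 ∧ ∃ n, n < r + 1 ∧ (r = pr w n ∧ 0 < n)) ∧ y = 0))
    (by (repeat' (first | assumption | refine d1_app4 (R := fun a b c d => a = st b c d) hst ?_ ?_ ?_ ?_ | exact DG.var _ | refine DG.add ?_ ?_ | refine DG.mul ?_ ?_ | refine DG.pr ?_ ?_ | refine dg_el ?_ ?_ | exact DG.const _ | refine DG.app (by assumption) ?_ | refine dg_app2 (by assumption) ?_ ?_ | refine dg_ind ?_ | refine D1.and ?_ ?_ | refine D1.or ?_ ?_ | refine D1.ball ?_ ?_ | refine D1.bex ?_ ?_ | refine D1.iff ?_ ?_ | refine D1.imp ?_ ?_ | refine D1.not ?_ | refine D1.eq ?_ ?_ | refine D1.lt ?_ ?_ | refine D1.le ?_ ?_ | refine d1_dvd ?_ ?_ |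 refine D1.MemC ?_ ?_ | refine D1.mem ?_ (by assumption) | exact D1.const _)))
    (by
      intro r x
      by_cases h : ∃ w, w < r + 1 ∧ ∃ n, n < r + 1 ∧ (r = pr w n ∧ 0 < n)
      · obtain ⟨w, h1, n, h2, h3, h4⟩ := h
        exact ⟨_, Or.inl ⟨w, h1, n, h2, h3, h4, rfl⟩⟩
      · exact ⟨0, Or.inr ⟨h, rfl⟩⟩)
    (by
      rintro r x y y' (⟨w, h1, n, h2, h3, h4, h5⟩ | ⟨h1, h2⟩)
        (⟨w', h1', n', h2', h3', h4', h5'⟩ | ⟨h1', h2'⟩)
      · obtain ⟨e1, e2⟩ := pr_inj (h3.symm.trans h3')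
        rw [h5, h5', e1, e2]
      · exact absurd ⟨w, h1, n, h2, h3, h4⟩ h1'
      · exact absurd ⟨w', h1', n', h2', h3', h4'⟩ h1
      · rw [h2, h2'])
  have hPD1 : ∀ w n, 0 < n → PD (pr w n) = pr w (pd n) := by
    intro w n hn
    rcases hPDs (pr w n) with ⟨w', _, n', _, h3, _, h5⟩ | ⟨h1, _⟩
    · obtain ⟨e1, e2⟩ := pr_inj h3
      rw [h5, e1, e2]
    · exact absurd ⟨w, (hbd w n).1, n, (hbd w n).2, rfl, hn⟩ h1
  have hST1 : ∀ w n x, 0 < n → ST (pr w n) x = st w n x := by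
    intro w n x hn
    rcases hSTs (pr w n) x with ⟨w', _, n', _, h3, _, h5⟩ | ⟨h1, _⟩
    · obtain ⟨e1, e2⟩ := pr_inj h3
      rw [h5, e1, e2]
    · exact absurd ⟨w, (hbd w n).1, n, (hbd w n).2, rfl, hn⟩ h1
  have hST0 : ∀ w x, ST (pr w 0) x = 0 := by
    intro w x
    rcases hSTs (pr w 0) x with ⟨w', _, n', _, h3, h4, h5⟩ | ⟨_, h1⟩
    · rw [← (pr_inj h3).2] at h4
      exact absurd h4 (lt_irrefl _)
    · exact h1
  have hPDlt : ∀ r, 0 < r → PD r < r := by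
    intro r hr
    rcases hPDs r with ⟨w', _, n', _, h3, h4, h5⟩ | ⟨_, h1⟩
    · rw [h5, h3]
      exact pr_lt_pr (by have := hlt n' h4; gcongr)
    · rw [h1]; exact hr
  obtain ⟨Φ, hΦ, hΦ0, hΦs⟩ := recur N PD ST 0 hPD (by (repeat' (first | assumption | exact DG.var _ | refine DG.add ?_ ?_ | refine DG.mul ?_ ?_ | refine DG.pr ?_ ?_ | refine dg_el ?_ ?_ | exact DG.const _ | refine DG.app (by assumption) ?_ | refine dg_app2 (by assumption) ?_ ?_ | refine dg_ind ?_ | refine D1.and ?_ ?_ | refine D1.or ?_ ?_ | refine D1.ball ?_ ?_ | refine D1.bex ?_ ?_ | refine D1.iff ?_ ?_ | refine D1.imp ?_ ?_ | refine D1.not ?_ | refine D1.eq ?_ ?_ | refine D1.lt ?_ ?_ | refine D1.le ?_ ?_ | refine d1_dvd ?_ ?_ | refine D1.MemC ?_ ?_ | refine D1.mem ?_ (by assumption) | exact D1.const _))) hPDlt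
  refine ⟨fun w n => Φ (pr w n), ?_, fun w => ?_, fun w n hn => ?_⟩
  · unfold GF2
    (repeat' (first | assumption | exact DG.var _ | refine DG.add ?_ ?_ | refine DG.mul ?_ ?_ | refine DG.pr ?_ ?_ | refine dg_el ?_ ?_ | exact DG.const _ | refine DG.app (by assumption) ?_ | refine dg_app2 (by assumption) ?_ ?_ | refine dg_ind ?_ | refine D1.and ?_ ?_ | refine D1.or ?_ ?_ | refine D1.ball ?_ ?_ | refine D1.bex ?_ ?_ | refine D1.iff ?_ ?_ | refine D1.imp ?_ ?_ | refine D1.not ?_ | refine D1.eq ?_ ?_ | refine D1.lt ?_ ?_ | refine D1.le ?_ ?_ | refine d1_dvd ?_ ?_ | refine D1.MemC ?_ ?_ | refine D1.mem ?_ (by assumption) | exact D1.const _))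
  · show Φ (pr w 0) = 0
    by_cases h0 : pr w 0 = 0
    · rw [h0, hΦ0]
    · rw [hΦs _ (Helper617.RM.pos_of_ne_zero h0), hST0]
  · show Φ (pr w n) = st w n (Φ (pr w (pd n)))
    rw [hΦs _ (lt_of_lt_of_le hn (snd_le_pr w n)), hST1 _ _ _ hn, hPD1 _ _ hn]

theorem exists_pred : ∃ pd : N.M → N.M, GF pd ∧ (∀ n, 0 < n → pd n < n) ∧
    ∀ n, pd (n + 1) = n := by
  obtain ⟨pd, h1, h2⟩ := gf_of_rel (N := N) (R := fun n y => n = y + 1 ∨ (n = 0 ∧ y = 0))
    (by (repeat' (first | assumption | exact DG.var _ | refine DG.add ?_ ?_ | refine DG.mul ?_ ?_ | refine DG.pr ?_ ?_ | refine dg_el ?_ ?_ | exact DG.const _ | refine DG.app (by assumption) ?_ | refine dg_app2 (by assumption) ?_ ?_ | refine dg_ind ?_ | refine D1.and ?_ ?_ | refine D1.or ?_ ?_ | refine D1.ball ?_ ?_ | refine D1.bex ?_ ?_ | refine D1.iff ?_ ?_ | refine D1.imp ?_ ?_ | refine D1.not ?_ | refine D1.eq ?_ ?_ | refine D1.lt ?_ ?_ | refine D1.le ?_ ?_ | refine d1_dvd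 ?_ ?_ | refine D1.MemC ?_ ?_ | refine D1.mem ?_ (by assumption) | exact D1.const _))) (by
      intro n
      rcases eq_zero_or_succ n with h | ⟨k, h⟩
      · exact ⟨0, Or.inr ⟨h, rfl⟩⟩
      · exact ⟨k, Or.inl h⟩) (by
      rintro n y y' (h | ⟨h, h'⟩) (g | ⟨g, g'⟩)
      · exact add_cancel' (h.symm.trans g)
      · exact absurd (h.symm.trans g) (succ_ne_zero' _)
      · exact absurd (g.symm.trans h) (succ_ne_zero' _)
      · rw [h', g'])
  have h3 : ∀ n, pd (n + 1) = n := by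
    intro n
    rcases h2 (n + 1) with h | ⟨h, _⟩
    · exact (add_cancel' h).symm
    · exact absurd h (succ_ne_zero' _)
  refine ⟨pd, h1, fun n hn => ?_, h3⟩
  rcases eq_zero_or_succ n with h | ⟨k, h⟩
  · rw [h] at hn; exact absurd hn (lt_irrefl _)
  · rw [h, h3]; exact lt1 k

theorem succ_pos' (n : N.M) : 0 < n + 1 := lt1_of_le (zero_le' n)

/-- primitive recursion with a parameter -/
theorem prec2 (st : N.M → N.M → N.M → N.M)
    (hst : D1 (fun v => v 0 = st (v 1) (v 2) (v 3))) :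
    ∃ Φ : N.M → N.M → N.M, GF2 Φ ∧ (∀ w, Φ w 0 = 0) ∧
      ∀ w n, Φ w (n + 1) = st w n (Φ w n) := by
  obtain ⟨pd, h1, h2, h3⟩ := exists_pred (N := N)
  obtain ⟨Φ, a1, a2, a3⟩ := recur2 pd (fun w n y => st w (pd n) y) h1
    (by (repeat' (first | assumption | refine d1_app4 (R := fun a b c d => a = st b c d) hst ?_ ?_ ?_ ?_ | exact DG.var _ | refine DG.add ?_ ?_ | refine DG.mul ?_ ?_ | refine DG.pr ?_ ?_ | refine dg_el ?_ ?_ | exact DG.const _ | refine DG.app (by assumption) ?_ | refine dg_app2 (by assumption) ?_ ?_ | refine dg_ind ?_ | refine D1.and ?_ ?_ | refine D1.or ?_ ?_ | refine D1.ball ?_ ?_ | refine D1.bex ?_ ?_ | refine D1.iff ?_ ?_ | refine D1.imp ?_ ?_ | refine D1.not ?_ | refine D1.eq ?_ ?_ | refine D1.lt ?_ ?_ | refine D1.le ?_ ?_ | refine d1_dvd ?_ ?_ | refine D1.MemC ?_ ?_ | refine D1.mem ?_ (by assumption) | exact D1.const _))) h2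
  refine ⟨Φ, a1, a2, fun w n => ?_⟩
  rw [a3 w (n + 1) (succ_pos' n), h3]

/-- primitive recursion -/
theorem prec1 (st : N.M → N.M → N.M) (hst : GF2 st) :
    ∃ Φ : N.M → N.M, GF Φ ∧ Φ 0 = 0 ∧ ∀ n, Φ (n + 1) = st n (Φ n) := by
  obtain ⟨Φ, a1, a2, a3⟩ := prec2 (fun w n y => st n y) (by (repeat' (first | assumption | exact DG.var _ | refine DG.add ?_ ?_ | refine DG.mul ?_ ?_ | refine DG.pr ?_ ?_ | refine dg_el ?_ ?_ | exact DG.const _ | refine DG.app (by assumption) ?_ | refine dg_app2 (by assumption) ?_ ?_ | refine dg_ind ?_ | refine D1.and ?_ ?_ | refine D1.or ?_ ?_ | refine D1.ball ?_ ?_ | refine D1.bex ?_ ?_ | refine D1.iff ?_ ?_ | refine D1.imp ?_ ?_ | refine D1.not ?_ | refine D1.eq ?_ ?_ | refine D1.lt ?_ ?_ | refine D1.le ?_ ?_ | refine d1_dvd ?_ ?_ | refine D1.MemC ?_ ?_ | refine D1.mem ?_ (by assumption) | exact D1.const _)))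
  exact ⟨Φ 0, GF.of (by (repeat' (first | assumption | exact DG.var _ | refine DG.add ?_ ?_ | refine DG.mul ?_ ?_ | refine DG.pr ?_ ?_ | refine dg_el ?_ ?_ | exact DG.const _ | refine DG.app (by assumption) ?_ | refine dg_app2 (by assumption) ?_ ?_ | refine dg_ind ?_ | refine D1.and ?_ ?_ | refine D1.or ?_ ?_ | refine D1.ball ?_ ?_ | refine D1.bex ?_ ?_ | refine D1.iff ?_ ?_ | refine D1.imp ?_ ?_ | refine D1.not ?_ | refine D1.eq ?_ ?_ | refine D1.lt ?_ ?_ | refine D1.le ?_ ?_ | refine d1_dvd ?_ ?_ | refine D1.MemC ?_ ?_ | refine D1.mem ?_ (by assumption) | exact D1.const _))), a2 0, a3 0⟩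

/-! ### remainders -/

theorem divmod (q : N.M) (hq : 0 < q) (v : N.M) : ∃ d, ∃ r, r < q ∧ v = q * d + r := by
  refine ind_S1 (P := fun v => ∃ d, ∃ r, r < q ∧ v = q * d + r) ?_ ?_ ?_ v
  · refine S1.ex (d1_s1 ?_)
    (repeat' (first | assumption | exact DG.var _ | refine DG.add ?_ ?_ | refine DG.mul ?_ ?_ | refine DG.pr ?_ ?_ | refine dg_el ?_ ?_ | exact DG.const _ | refine DG.app (by assumption) ?_ | refine dg_app2 (by assumption) ?_ ?_ | refine dg_ind ?_ | refine D1.and ?_ ?_ | refine D1.or ?_ ?_ | refine D1.ball ?_ ?_ | refine D1.bex ?_ ?_ | refine D1.iff ?_ ?_ | refine D1.imp ?_ ?_ | refine D1.not ?_ | refine D1.eq ?_ ?_ | refine D1.lt ?_ ?_ | refine D1.le ?_ ?_ | refine d1_dvd ?_ ?_ | refine D1.MemC ?_ ?_ | refine D1.mem ?_ (by assumption) | exact D1.const _))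
  · exact ⟨0, 0, hq, by ring⟩
  · rintro v ⟨d, r, h1, h2⟩
    rcases lt_or_eq_of_le (succ_le' h1) with h | h
    · exact ⟨d, r + 1, h, by rw [h2]; ring⟩
    · exact ⟨d + 1, 0, hq, by rw [h2, add_assoc, h]; ring⟩

theorem divmod_unique {q d d' r r' : N.M} (hr : r < q) (hr' : r' < q)
    (h : q * d + r = q * d' + r') : r = r' := by
  have key : ∀ {d d' r r' : N.M}, r < q → q * d + r = q * d' + r' → ¬ d < d' := by
    intro d d' r r' hr h hlt
    have h1 : q * (d + 1) ≤ q * d' := by have := succ_le' hlt; gcongr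
    have h2 : q * d + r < q * (d + 1) := by rw [mul_add, mul_one]; gcongr
    have h3 : q * d' ≤ q * d' + r' := le_add_of_nonneg_right (zero_le' _)
    exact absurd h (h2.trans_le (h1.trans h3)).ne
  rcases lt_trichotomy d d' with h1 | h1 | h1
  · exact absurd h1 (key hr h)
  · rw [h1] at h; exact add_left_cancel h
  · exact absurd h1 (key hr' h.symm)

/-- remainder function -/
structure Md (md : N.M → N.M → N.M) : Prop where
  gf : GF2 md
  lt : ∀ q v, 0 < q → md q v < q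
  ex : ∀ q v, 0 < q → ∃ d, v = q * d + md q v
  uniq : ∀ q v d r, r < q → v = q * d + r → md q v = r

theorem exists_md : ∃ md : N.M → N.M → N.M, Md md := by
  obtain ⟨md, h1, h2⟩ := gf2_of_rel (N := N) (R := fun q v r =>
      (r < q ∧ ∃ d, d < v + 1 ∧ v = q * d + r) ∨ (q = 0 ∧ r = 0)) (by (repeat' (first | assumption | exact DG.var _ | refine DG.add ?_ ?_ | refine DG.mul ?_ ?_ | refine DG.pr ?_ ?_ | refine dg_el ?_ ?_ | exact DG.const _ | refine DG.app (by assumption) ?_ | refine dg_app2 (by assumption) ?_ ?_ | refine dg_ind ?_ | refine D1.and ?_ ?_ | refine D1.or ?_ ?_ | refine D1.ball ?_ ?_ | refine D1.bex ?_ ?_ | refine D1.iff ?_ ?_ | refine D1.imp ?_ ?_ | refine D1.not ?_ | refine D1.eq ?_ ?_ | refine D1.lt ?_ ?_ | refine D1.le ?_ ?_ | refine d1_dvd ?_ ?_ | refine D1.MemC ?_ ?_ | refine D1.mem ?_ (by assumption) | exact D1.const _))) (by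
      intro q v
      by_cases hq : q = 0
      · exact ⟨0, Or.inr ⟨hq, rfl⟩⟩
      · have hq' := Helper617.RM.pos_of_ne_zero hq
        obtain ⟨d, r, h1, h2⟩ := divmod q hq' v
        refine ⟨r, Or.inl ⟨h1, d, lt1_of_le ?_, h2⟩⟩
        calc d = 1 * d := by ring
          _ ≤ q * d := by have := one_le_of_pos hq'; gcongr
          _ ≤ q * d + r := le_add_of_nonneg_right (zero_le' _)
          _ = v := h2.symm) (by
      rintro q v r r' (⟨h1, d, _, h2⟩ | ⟨h1, h2⟩) (⟨g1, d', _, g2⟩ | ⟨g1, g2⟩)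
      · exact divmod_unique h1 g1 (h2.symm.trans g2)
      · rw [g1] at h1; exact absurd h1 (not_lt_of_ge (zero_le' _))
      · rw [h1] at g1; exact absurd g1 (not_lt_of_ge (zero_le' _))
      · rw [h2, g2])
  have h3 : ∀ q v, 0 < q → md q v < q ∧ ∃ d, v = q * d + md q v := by
    intro q v hq
    rcases h2 q v with ⟨a1, d, _, a2⟩ | ⟨a1, _⟩
    · exact ⟨a1, d, a2⟩
    · exact absurd a1 hq.ne'
  refine ⟨md, h1, fun q v hq => (h3 q v hq).1, fun q v hq => (h3 q v hq).2, ?_⟩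
  intro q v d r hr hv
  obtain ⟨a1, d', a2⟩ := h3 q v (lt_of_le_of_lt (zero_le' r) hr)
  exact divmod_unique a1 hr (a2.symm.trans hv)

theorem Md.add_mul {md : N.M → N.M → N.M} (h : Md md) {q : N.M} (hq : 0 < q) (v e : N.M) :
    md q (v + q * e) = md q v := by
  obtain ⟨d, hd⟩ := h.ex q v hq
  refine h.uniq q _ (d + e) _ (h.lt q v hq) ?_
  calc v + q * e = q * d + md q v + q * e := by rw [← hd]
    _ = _ := by ring

theorem Md.congr_add {md : N.M → N.M → N.M} (h : Md md) {q : N.M} (hq : 0 < q) {v v' : N.M}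
    (e : md q v = md q v') (w : N.M) : md q (v + w) = md q (v' + w) := by
  obtain ⟨d, hd⟩ := h.ex q v hq
  obtain ⟨d', hd'⟩ := h.ex q v' hq
  have e1 : v + w = (md q v + w) + q * d := by
    calc v + w = q * d + md q v + w := by rw [← hd]
      _ = _ := by ring
  have e2 : v' + w = (md q v + w) + q * d' := by
    calc v' + w = q * d' + md q v' + w := by rw [← hd']
      _ = _ := by rw [e]; ring
  rw [e1, e2, h.add_mul hq, h.add_mul hq]

/-! ### a potential for increasing chains of subsets of `[0, q)` -/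

/-- potential -/
def Pot (q m B : N.M) (R : N.M → Prop) (k : N.M) : Prop :=
  ∀ c, c < B + 1 → 0 < c → (∀ r, r < q → R r → el m r ∣ c) → k ≤ c

/-- data for the potential -/
def PotData (q m B : N.M) : Prop := Base q m ∧ 0 < B ∧ ∀ i, i < q → el m i ∣ B

theorem exists_potData (q : N.M) : ∃ m B, PotData q m B := by
  obtain ⟨m, hm⟩ := exists_base q
  obtain ⟨B, h1, h2⟩ := exists_top q m
  exact ⟨m, B, hm, h1, h2⟩

theorem pot_zero (q m B : N.M) (R : N.M → Prop) : Pot q m B R 0 := fun c _ _ _ => zero_le' c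

theorem pot_mono {q m B k : N.M} {R R' : N.M → Prop} (h : ∀ r, R r → R' r)
    (hp : Pot q m B R k) : Pot q m B R' k :=
  fun c h1 h2 h3 => hp c h1 h2 fun r hr hR => h3 r hr (h r hR)

theorem pot_le {q m B k : N.M} {R : N.M → Prop} (hd : PotData q m B) (hp : Pot q m B R k) :
    k ≤ B := hp B (lt1 B) hd.2.1 fun r hr _ => hd.2.2 r hr

theorem pot_succ {q m B k r0 : N.M} {R R' : N.M → Prop} (hd : PotData q m B)
    (h : ∀ r, R r → R' r) (hr0 : r0 < q) (h1 : R' r0) (h2 : ¬ R r0) (hp : Pot q m B R k) :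
    Pot q m B R' (k + 1) := by
  intro c hc hc0 hdiv
  obtain ⟨c', rfl⟩ := hdiv r0 hr0 h1
  have hc' : 0 < c' := by
    refine Helper617.RM.pos_of_ne_zero fun h0 => ?_
    rw [h0, mul_zero] at hc0
    exact absurd hc0 (lt_irrefl _)
  have hlt : c' < el m r0 * c' := by
    calc c' = c' * 1 := by ring
      _ < c' * el m r0 := mul_lt_mul_aux hc' (one_lt_el hd.1.1)
      _ = _ := by ring
  have := hp c' (hlt.trans hc) hc' fun r hr hR =>
    cop hd.1 hr hr0 (fun e => h2 (e ▸ hR)) (hdiv r hr (h r hR))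
  exact succ_le' (lt_of_le_of_lt this hlt)

end Pool.Agent.H965Z.Thin
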