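import Mathlib
import Pool.Agent.H965Z.ThinHT.Tools

namespace Pool.Agent.H965Z.Thin

open Pool.Agent.Helper617.RM Pool.Agent.H645R2.R

universe u

set_option linter.unusedSectionVars false
set_option linter.unusedVariables false
set_option linter.unusedTactic false
set_option linter.unreachableTactic false

variable {N : L2Structure.{u}} [IsModelRCA0 N]

section bin

variable {p2 top la : N.M → N.M}

theorem p2_mono (hB : BinF p2 top la) {a b : N.M} (h : a ≤ b) : p2 a ≤ p2 b := by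
  rcases lt_or_eq_of_le h with h | h
  · exact (hB.p2_lt a b h).le
  · rw [h]

theorem lt_of_p2_lt (hB : BinF p2 top la) {a b : N.M} (h : p2 a < p2 b) : a < b := by
  by_contra hc
  exact absurd (p2_mono hB (not_lt.1 hc)) (not_le_of_gt h)

theorem top_lt_of_lt (hB : BinF p2 top la) {m k : N.M} (hm : 0 < m) (h : m < p2 k) : top m < k :=
  lt_of_p2_lt hB ((hB.top_le m hm).trans_lt h)

theorem lt_p2_of_top_lt (hB : BinF p2 top la) {m k : N.M} (h : top m < k) : m < p2 k :=
  (hB.lt_top m).trans_le (p2_mono hB (succ_le' h))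

theorem top_lt_self (hB : BinF p2 top la) {m : N.M} (hm : 0 < m) : top m < m :=
  (hB.lt_p2 _).trans_le (hB.top_le m hm)

theorem top_add' (hB : BinF p2 top la) {x m : N.M} (hm : 0 < m) (hx : x < p2 (la m)) :
    top (x + m) = top m := by
  refine hB.top_unique _ _ ((hB.top_le m hm).trans (le_add_of_nonneg_left (zero_le' _))) ?_
  obtain ⟨q, hq⟩ := hB.la_eq m hm
  obtain ⟨e, he⟩ := exists_sub ((hB.la_le_top m hm).trans (lt1 (top m)).le)
  have h1 : p2 (top m + 1) = p2 (la m) * p2 e := by rw [he, hB.p2_add]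
  have h2 : m < p2 (top m + 1) := hB.lt_top m
  have h3 : q + q + 1 < p2 e := by
    by_contra hc
    have h4 : p2 (la m) * p2 e ≤ p2 (la m) * (q + q + 1) := by
      have := not_lt.1 hc
      have := (hB.p2_pos (la m)).le
      gcongr
    rw [← hq, ← h1] at h4
    exact absurd h2 (not_lt_of_ge h4)
  have h5 : p2 (la m) * (q + q + 1 + 1) ≤ p2 (la m) * p2 e := by
    have := succ_le' h3
    have := (hB.p2_pos (la m)).le
    gcongr
  calc x + m < p2 (la m) + m := by gcongr
    _ = p2 (la m) + p2 (la m) * (q + q + 1) := by rw [← hq]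
    _ = p2 (la m) * (q + q + 1 + 1) := by ring
    _ ≤ _ := by rw [h1]; exact h5

theorem la_add' (hB : BinF p2 top la) {x m : N.M} (hx0 : 0 < x) (hm : 0 < m)
    (hx : x < p2 (la m)) : la (x + m) = la x := by
  obtain ⟨q, hq⟩ := hB.la_eq m hm
  have := hB.la_add x (la m) (q + q + 1) hx0 hx
  rwa [← hq] at this

theorem exists_pd (hB : BinF p2 top la) : ∃ pd : N.M → N.M, GF pd ∧ (∀ n, 0 < n → pd n < n) ∧
    ∀ m i, m < p2 i → pd (m + p2 i) = m := by
  have hp2 := hB.hp2
  have htop := hB.htop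
  have hnz : ∀ n m : N.M, n = m + p2 (top n) → n ≠ 0 := by
    intro n m hm h0
    have h2 : 0 < m + p2 (top n) := add_pos_of_nonneg_of_pos (zero_le' m) (hB.p2_pos (top n))
    rw [← hm, h0] at h2
    exact lt_irrefl _ h2
  obtain ⟨pd, h1, h2⟩ := gf_of_rel (N := N)
    (R := fun n m => (n = m + p2 (top n)) ∨ (n = 0 ∧ m = 0)) (by (repeat' (first | assumption | exact DG.var _ | refine DG.add ?_ ?_ | refine DG.mul ?_ ?_ | refine DG.pr ?_ ?_ | refine dg_el ?_ ?_ | exact DG.const _ | refine DG.app (by assumption) ?_ | refine dg_app2 (by assumption) ?_ ?_ | refine dg_ind ?_ | refine D1.and ?_ ?_ | refine D1.or ?_ ?_ | refine D1.ball ?_ ?_ | refine D1.bex ?_ ?_ | refine D1.iff ?_ ?_ | refine D1.imp ?_ ?_ | refine D1.not ?_ | refine D1.eq ?_ ?_ | refine D1.lt ?_ ?_ | refine D1.le ?_ ?_ | refine d1_dvd ?_ ?_ | refine D1.MemC ?_ ?_ | refine D1.mem ?_ (by assumption) | exact D1.const _))) (by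
      intro n
      by_cases hn : n = 0
      · exact ⟨0, Or.inr ⟨hn, rfl⟩⟩
      · rcases hB.dec n (Helper617.RM.pos_of_ne_zero hn) with h1 | ⟨m, _, _, hm⟩
        · exact ⟨0, Or.inl (by rw [zero_add]; exact h1)⟩
        · exact ⟨m, Or.inl hm⟩) (by
      rintro n m m' (h | ⟨h, h'⟩) (g | ⟨g, g'⟩)
      · exact add_cancel' (h.symm.trans g)
      · exact absurd g (hnz n m h)
      · exact absurd h (hnz n m' g)
      · rw [h', g'])
  refine ⟨pd, h1, fun n hn => ?_, fun m i hm => ?_⟩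
  · rcases h2 n with h | ⟨h, _⟩
    · calc pd n < pd n + p2 (top n) := lt_add_of_pos_right _ (hB.p2_pos _)
        _ = n := h.symm
    · exact absurd h hn.ne'
  · rcases h2 (m + p2 i) with h | ⟨h, _⟩
    · rw [hB.top_add m i hm] at h
      exact (add_cancel' h).symm
    · exact absurd h (add_pos_of_nonneg_of_pos (zero_le' m) (hB.p2_pos i)).ne'

end bin

theorem ev_D1 {W : N.M → N.M → Prop} (hW : Enum W) {a b c : Ctx N → N.M} (ha : DG a) (hb : DG b)
    (hc : DG c) : D1 (fun v => Ev W (a v) (b v) (c v)) := by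
  refine D1.app3 (R := fun a b c => Ev W a b c) ?_ ha hb hc
  unfold Ev
  (repeat' (first | assumption | refine D1.app2 (R := W) (D1.of hW.hW) ?_ ?_ | exact DG.var _ | refine DG.add ?_ ?_ | refine DG.mul ?_ ?_ | refine DG.pr ?_ ?_ | refine dg_el ?_ ?_ | exact DG.const _ | refine DG.app (by assumption) ?_ | refine dg_app2 (by assumption) ?_ ?_ | refine dg_ind ?_ | refine D1.and ?_ ?_ | refine D1.or ?_ ?_ | refine D1.ball ?_ ?_ | refine D1.bex ?_ ?_ | refine D1.iff ?_ ?_ | refine D1.imp ?_ ?_ | refine D1.not ?_ | refine D1.eq ?_ ?_ | refine D1.lt ?_ ?_ | refine D1.le ?_ ?_ | refine d1_dvd ?_ ?_ | refine D1.MemC ?_ ?_ | refine D1.mem ?_ (by assumption) | exact D1.const _))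

theorem Ev.mono' {W : N.M → N.M → Prop} (hW : Enum W) {p a b p' a' b' : N.M} (h : Ev W p a b)
    (hp : p ≤ p') (ha : a' ≤ a) (hb : b ≤ b') : Ev W p' a' b' := by
  obtain ⟨z, h1, h2, h3⟩ := h
  exact ⟨z, h1.trans_le hp, hW.mono _ _ _ hb h2, fun h4 => h3 (hW.mono _ _ _ ha h4)⟩

/-- `V t x` is the number of gaps of `x` that are short at stage `t` -/
structure VSys (p2 top la : N.M → N.M) (W : N.M → N.M → Prop) (V : N.M → N.M → N.M) : Prop where
  gf : GF2 V
  add : ∀ t x y, 0 < x → 0 < y → x < p2 (la y) →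
    V t (x + y) = V t x + V t y + ind (Ev W (top x + 1) (la y) t)

theorem exists_V {p2 top la : N.M → N.M} (hB : BinF p2 top la) {W : N.M → N.M → Prop}
    (hW : Enum W) : ∃ V, VSys p2 top la W V := by
  have hp2 := hB.hp2
  have htop := hB.htop
  have hla := hB.hla
  obtain ⟨pd, hpd, hpdlt, hpds⟩ := exists_pd hB
  obtain ⟨V, hV, hV0, hVs⟩ := recur2 pd
    (fun t n y => y + ind (0 < pd n ∧ Ev W (top (pd n) + 1) (top n) t)) hpd
    (by (repeat' (first | assumption | refine ev_D1 hW ?_ ?_ ?_ | exact DG.var _ | refine DG.add ?_ ?_ | refine DG.mul ?_ ?_ | refine DG.pr ?_ ?_ | refine dg_el ?_ ?_ | exact DG.const _ | refine DG.app (by assumption) ?_ | refine dg_app2 (by assumption) ?_ ?_ | refine dg_ind ?_ | refine D1.and ?_ ?_ | refine D1.or ?_ ?_ | refine D1.ball ?_ ?_ | refine D1.bex ?_ ?_ | refine D1.iff ?_ ?_ | refine D1.imp ?_ ?_ | refine D1.not ?_ | refine D1.eq ?_ ?_ | refine D1.lt ?_ ?_ | refine D1.le ?_ ?_ | refine d1_dvd ?_ ?_ | refine D1.MemC ?_ ?_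 | refine D1.mem ?_ (by assumption) | exact D1.const _))) hpdlt
  have hstep : ∀ t m i, m < p2 i →
      V t (m + p2 i) = V t m + ind (0 < m ∧ Ev W (top m + 1) i t) := by
    intro t m i hm
    rw [hVs t _ (add_pos_of_nonneg_of_pos (zero_le' m) (hB.p2_pos i)), hpds m i hm,
      hB.top_add m i hm]
  refine ⟨V, hV, fun t x y hx hy hxy => ?_⟩
  have key : ∀ y, 0 < y → x < p2 (la y) →
      V t (x + y) = V t x + V t y + ind (Ev W (top x + 1) (la y) t) := by
    intro y
    refine strong_S1 (P := fun y => 0 < y → x < p2 (la y) →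
      V t (x + y) = V t x + V t y + ind (Ev W (top x + 1) (la y) t)) ?_ ?_ y
    · refine d1_s1 ?_
      (repeat' (first | assumption | refine ev_D1 hW ?_ ?_ ?_ | exact DG.var _ | refine DG.add ?_ ?_ | refine DG.mul ?_ ?_ | refine DG.pr ?_ ?_ | refine dg_el ?_ ?_ | exact DG.const _ | refine DG.app (by assumption) ?_ | refine dg_app2 (by assumption) ?_ ?_ | refine dg_ind ?_ | refine D1.and ?_ ?_ | refine D1.or ?_ ?_ | refine D1.ball ?_ ?_ | refine D1.bex ?_ ?_ | refine D1.iff ?_ ?_ | refine D1.imp ?_ ?_ | refine D1.not ?_ | refine D1.eq ?_ ?_ | refine D1.lt ?_ ?_ | refine D1.le ?_ ?_ | refine d1_dvd ?_ ?_ | refine D1.MemC ?_ ?_ | refine D1.mem ?_ (by assumption) | exact D1.const _))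
    · intro y ih hy hxy
      rcases hB.dec y hy with h | ⟨m, hm0, hm, h⟩
      · generalize top y = k at h
        subst h
        rw [hB.la_p2] at hxy ⊢
        have h0 := hstep t 0 k (hB.p2_pos k)
        rw [zero_add, hV0, ind_neg (fun h => lt_irrefl _ h.1), add_zero] at h0
        rw [hstep t x k hxy, h0, add_zero]
        congr 1
        exact ind_congr ⟨fun h => h.2, fun h => ⟨hx, h⟩⟩
      · generalize top y = k at h hm
        subst h
        have hla1 : la (m + p2 k) = la m := by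
          have := hB.la_add m k 1 hm0 hm
          rwa [mul_one] at this
        rw [hla1] at hxy ⊢
        have h1 := ih m (lt_add_of_pos_right _ (hB.p2_pos k)) hm0 hxy
        have h2 : top (x + m) = top m := top_add' hB hm0 hxy
        have h3 : x + m < p2 k := lt_p2_of_top_lt hB (by rw [h2]; exact top_lt_of_lt hB hm0 hm)
        rw [← add_assoc, hstep t _ k h3, hstep t m k hm, h1, h2]
        have h4 : (ind (0 < x + m ∧ Ev W (top m + 1) k t) : N.M) =
            ind (0 < m ∧ Ev W (top m + 1) k t) :=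
          ind_congr ⟨fun h => ⟨hm0, h.2⟩, fun h => ⟨add_pos hx hm0, h.2⟩⟩
        rw [h4]
        ring
  exact key y hy hxy

/-- blocks and their sums -/
structure Blk (p2 top la : N.M → N.M) (c h : N.M → N.M) (Q : N.M → N.M → Prop) (i : N.M) :
    Prop where
  gf : GF h
  hQ : D1 (fun v => Q (v 0) (v 1))
  pos : ∀ n, 0 < h n
  apart : ∀ n, top (h n) < la (h (n + 1))
  q0 : ∀ m, Q (m + 1) (h m)
  q1 : ∀ n x m, Q n x → n ≤ m → Q (m + 1) (x + h m)
  mono : ∀ n n' x, Q n x → n ≤ n' → Q n' x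
  thin : ∀ n x, Q n x → c x ≠ i

section blk

variable {p2 top la c h : N.M → N.M} {Q : N.M → N.M → Prop} {i : N.M}

theorem Blk.la_succ (hB : BinF p2 top la) (hK : Blk p2 top la c h Q i) (n : N.M) :
    la (h n) < la (h (n + 1)) := (hB.la_le_top _ (hK.pos n)).trans_lt (hK.apart n)

theorem Blk.la_mono (hB : BinF p2 top la) (hK : Blk p2 top la c h Q i) {n n' : N.M}
    (hn : n ≤ n') : la (h n) ≤ la (h n') := by
  obtain ⟨d, rfl⟩ := exists_sub hn
  have hla := hB.hla
  have hh := hK.gf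
  refine ind_S1 (P := fun d => la (h n) ≤ la (h (n + d))) (d1_s1 (by (repeat' (first | assumption | exact DG.var _ | refine DG.add ?_ ?_ | refine DG.mul ?_ ?_ | refine DG.pr ?_ ?_ | refine dg_el ?_ ?_ | exact DG.const _ | refine DG.app (by assumption) ?_ | refine dg_app2 (by assumption) ?_ ?_ | refine dg_ind ?_ | refine D1.and ?_ ?_ | refine D1.or ?_ ?_ | refine D1.ball ?_ ?_ | refine D1.bex ?_ ?_ | refine D1.iff ?_ ?_ | refine D1.imp ?_ ?_ | refine D1.not ?_ | refine D1.eq ?_ ?_ | refine D1.lt ?_ ?_ | refine D1.le ?_ ?_ | refine d1_dvd ?_ ?_ | refine D1.MemC ?_ ?_ | refine D1.mem ?_ (by assumption) | exact D1.const _)))) ?_ ?_ d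
  · rw [add_zero]
  · intro d ih
    rw [← add_assoc]
    exact ih.trans (hK.la_succ hB _).le

theorem Blk.le_la (hB : BinF p2 top la) (hK : Blk p2 top la c h Q i) (n : N.M) :
    n ≤ la (h n) := by
  have hla := hB.hla
  have hh := hK.gf
  refine ind_S1 (P := fun n => n ≤ la (h n)) (d1_s1 (by (repeat' (first | assumption | exact DG.var _ | refine DG.add ?_ ?_ | refine DG.mul ?_ ?_ | refine DG.pr ?_ ?_ | refine dg_el ?_ ?_ | exact DG.const _ | refine DG.app (by assumption) ?_ | refine dg_app2 (by assumption) ?_ ?_ | refine dg_ind ?_ | refine D1.and ?_ ?_ | refine D1.or ?_ ?_ | refine D1.ball ?_ ?_ | refine D1.bex ?_ ?_ | refine D1.iff ?_ ?_ | refine D1.imp ?_ ?_ | refine D1.not ?_ | refine D1.eq ?_ ?_ | refine D1.lt ?_ ?_ | refine D1.le ?_ ?_ | refine d1_dvd ?_ ?_ | refine D1.MemC ?_ ?_ | refine D1.mem ?_ (by assumption) | exact D1.const _)))) (zero_le' _) ?_ n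
  intro d ih
  exact succ_le' (ih.trans_lt (hK.la_succ hB _))

theorem Blk.top_lt (hB : BinF p2 top la) (hK : Blk p2 top la c h Q i) {n n' : N.M}
    (hn : n < n') : top (h n) < la (h n') :=
  (hK.apart n).trans_le (hK.la_mono hB (succ_le' hn))

theorem Blk.la_le_top (hB : BinF p2 top la) (hK : Blk p2 top la c h Q i) (n : N.M) :
    la (h n) ≤ top (h n) := hB.la_le_top _ (hK.pos n)

end blk

end Pool.Agent.H965Z.Thin
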