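import Mathlib
import Pool.Agent.H965Z.ThinHT.Col

namespace Pool.Agent.H965Z.Thin

open Pool.Agent.Helper617.RM Pool.Agent.H645R2.R

universe u

set_option linter.unusedSectionVars false
set_option linter.unusedVariables false
set_option linter.unusedTactic false
set_option linter.unreachableTactic false

variable {N : L2Structure.{u}} [IsModelRCA0 N]

/-- all data for one application of the principle -/
structure Sys (p2 top la : N.M → N.M) (md : N.M → N.M → N.M) (W : N.M → N.M → Prop)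
    (V : N.M → N.M → N.M) (h : N.M → N.M) (Q : N.M → N.M → Prop) (i : N.M) : Prop where
  bin : BinF p2 top la
  hmd : Md md
  enum : Enum W
  vs : VSys p2 top la W V
  blk : Blk p2 top la (fun x => md (la x + 1) (V (top x) x)) h Q i

/-- residues reached by sums of blocks of index below `n`, at the stage of block `m` -/
def RR (p2 top la : N.M → N.M) (md V : N.M → N.M → N.M) (h : N.M → N.M)
    (Q : N.M → N.M → Prop) (i m n r : N.M) : Prop :=
  ∃ x, x < p2 (la (h n)) ∧ (Q n x ∧ (0 < x ∧ (la x = la (h i) ∧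
    md (la (h i) + 1) (V (top (h m)) x) = r)))

variable {p2 top la : N.M → N.M} {md : N.M → N.M → N.M} {W : N.M → N.M → Prop}
  {V : N.M → N.M → N.M} {h : N.M → N.M} {Q : N.M → N.M → Prop} {i : N.M}

theorem RR_D1 (S : Sys p2 top la md W V h Q i) {a b c : Ctx N → N.M} (ha : DG a) (hb : DG b)
    (hc : DG c) : D1 (fun v => RR p2 top la md V h Q i (a v) (b v) (c v)) := by
  refine D1.app3 (R := fun a b c => RR p2 top la md V h Q i a b c) ?_ ha hb hc
  have hp2 := S.bin.hp2
  have htop := S.bin.htop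
  have hla := S.bin.hla
  have hh := S.blk.gf
  have hmd := S.hmd.gf
  have hV := S.vs.gf
  unfold RR
  (repeat' (first | assumption | refine D1.app2 (R := Q) S.blk.hQ ?_ ?_ | exact DG.var _ | refine DG.add ?_ ?_ | refine DG.mul ?_ ?_ | refine DG.pr ?_ ?_ | refine dg_el ?_ ?_ | exact DG.const _ | refine DG.app (by assumption) ?_ | refine dg_app2 (by assumption) ?_ ?_ | refine dg_ind ?_ | refine D1.and ?_ ?_ | refine D1.or ?_ ?_ | refine D1.ball ?_ ?_ | refine D1.bex ?_ ?_ | refine D1.iff ?_ ?_ | refine D1.imp ?_ ?_ | refine D1.not ?_ | refine D1.eq ?_ ?_ | refine D1.lt ?_ ?_ | refine D1.le ?_ ?_ | refine d1_dvd ?_ ?_ | refine D1.MemC ?_ ?_ | refine D1.mem ?_ (by assumption) | exact D1.const _))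

theorem RR_mono (S : Sys p2 top la md W V h Q i) {m n n' r : N.M} (hn : n ≤ n')
    (hR : RR p2 top la md V h Q i m n r) : RR p2 top la md V h Q i m n' r := by
  obtain ⟨x, h1, h2, h3⟩ := hR
  exact ⟨x, h1.trans_le (p2_mono S.bin (S.blk.la_mono S.bin hn)), S.blk.mono _ _ _ h2 hn, h3⟩

theorem core (S : Sys p2 top la md W V h Q i) {m n u n' : N.M} (hi : i < n) (hu : n ≤ u)
    (hn' : u + 1 + 1 ≤ n') (hm : u ≤ m)
    (hlong : ¬ Ev W (la (h n)) (la (h u)) (top (h m)))
    (hshort : Ev W (top (h u) + 1) (la (h (u + 1))) (top (h m))) :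
    ∃ r, r < la (h i) + 1 ∧ RR p2 top la md V h Q i m n' r ∧ ¬ RR p2 top la md V h Q i m n r := by
  by_contra hcon
  push Not at hcon
  have hB := S.bin
  have hK := S.blk
  have hW := S.enum
  have hM := S.hmd
  set q := la (h i) + 1 with hq
  set t := top (h m) with ht
  have hq0 : 0 < q := succ_pos' _
  -- adding a block far away
  have hfar : ∀ x k, x < p2 (la (h n)) → 0 < x → u ≤ k →
      x < p2 (la (h k)) ∧ V t (x + h k) = V t x + V t (h k) ∧ la (x + h k) = la x ∧
        top (x + h k) = top (h k) := by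
    intro x k hx hx0 hk
    have h1 : x < p2 (la (h k)) := hx.trans_le (p2_mono hB (hK.la_mono hB (hu.trans hk)))
    refine ⟨h1, ?_, la_add' hB hx0 (hK.pos k) h1, top_add' hB (hK.pos k) h1⟩
    rw [S.vs.add t x (h k) hx0 (hK.pos k) h1, ind_neg, add_zero]
    intro he
    exact hlong (Ev.mono' hW he (succ_le' (top_lt_of_lt hB hx0 hx)) (hK.la_mono hB hk) le_rfl)
  have hu1 : u + 1 < n' := lt_of_lt_of_le (lt1 _) hn'
  have hu0 : u < n' := (lt1 u).trans hu1
  let T : N.M → Prop := fun v => RR p2 top la md V h Q i m n (md q v)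
  have hT : D1 (fun v : Ctx N => T (v 0)) := by
    have hmd := hM.gf
    exact RR_D1 S (DG.const m) (DG.const n) (dg_app2 hmd (DG.const q) (DG.var 0))
  have hback : ∀ v x, x < p2 (la (h n')) → Q n' x → 0 < x → la x = la (h i) →
      md q (V t x) = md q v → T v := by
    intro v x a1 a2 a3 a4 a5
    exact hcon _ (hM.lt q v hq0) ⟨x, a1, a2, a3, a4, a5⟩
  have hTa : ∀ v, T v → T (v + V t (h u)) := by
    rintro v ⟨x, a1, a2, a3, a4, a5⟩
    obtain ⟨b1, b2, b3, b4⟩ := hfar x u a1 a3 le_rfl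
    refine hback _ (x + h u) (lt_p2_of_top_lt hB (by rw [b4]; exact hK.top_lt hB hu0))
      (hK.mono _ _ _ (hK.q1 n x u a2 hu) hu1.le) (add_pos a3 (hK.pos u)) (b3.trans a4) ?_
    rw [b2]
    exact hM.congr_add hq0 a5 _
  have hTb : ∀ v, T v → T (v + V t (h (u + 1))) := by
    rintro v ⟨x, a1, a2, a3, a4, a5⟩
    obtain ⟨b1, b2, b3, b4⟩ := hfar x (u + 1) a1 a3 (lt1 u).le
    refine hback _ (x + h (u + 1)) (lt_p2_of_top_lt hB (by rw [b4]; exact hK.top_lt hB hu1))
      (hK.mono _ _ _ (hK.q1 n x (u + 1) a2 (hu.trans (lt1 u).le)) hn')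
      (add_pos a3 (hK.pos _)) (b3.trans a4) ?_
    rw [b2]
    exact hM.congr_add hq0 a5 _
  have hTc : ∀ v, T v → T (v + (V t (h u) + V t (h (u + 1)) + 1)) := by
    rintro v ⟨x, a1, a2, a3, a4, a5⟩
    obtain ⟨b1, b2, b3, b4⟩ := hfar x u a1 a3 le_rfl
    have c0 : 0 < x + h u := add_pos a3 (hK.pos u)
    have c1 : x + h u < p2 (la (h (u + 1))) :=
      lt_p2_of_top_lt hB (by rw [b4]; exact hK.apart u)
    refine hback _ (x + h u + h (u + 1)) (lt_p2_of_top_lt hB (by
        rw [top_add' hB (hK.pos _) c1]; exact hK.top_lt hB hu1))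
      (hK.mono _ _ _ (hK.q1 (u + 1) _ (u + 1) (hK.q1 n x u a2 hu) le_rfl) hn')
      (add_pos c0 (hK.pos _)) ((la_add' hB c0 (hK.pos _) c1).trans (b3.trans a4)) ?_
    rw [S.vs.add t _ _ c0 (hK.pos _) c1, b4, ind_pos hshort, b2]
    have := hM.congr_add hq0 a5 (V t (h u) + V t (h (u + 1)) + 1)
    rw [← this]
    congr 1
    ring
  have hiter : ∀ a, (∀ v, T v → T (v + a)) → ∀ v, T v → ∀ k, T (v + k * a) := by
    intro a ha v hv k
    refine ind_S1 (P := fun k => T (v + k * a)) (d1_s1 ?_) ?_ ?_ k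
    · exact D1.app1 hT (DG.add (DG.const v) (DG.mul (DG.var 0) (DG.const a)))
    · rw [zero_mul, add_zero]; exact hv
    · intro k ih
      have := ha _ ih
      rwa [show v + k * a + a = v + (k + 1) * a by ring] at this
  have hT1 : ∀ v, T v → T (v + 1) := by
    intro v hv
    have h1 := hiter _ hTb _ (hiter _ hTa _ (hTc v hv) (la (h i))) (la (h i))
    have e : v + (V t (h u) + V t (h (u + 1)) + 1) + la (h i) * V t (h u) +
        la (h i) * V t (h (u + 1)) = (v + 1) + q * (V t (h u) + V t (h (u + 1))) := by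
      rw [hq]; ring
    rw [e] at h1
    show RR p2 top la md V h Q i m n (md q (v + 1))
    rw [← hM.add_mul hq0 (v + 1) (V t (h u) + V t (h (u + 1)))]
    exact h1
  have hT0 : T (V t (h i)) :=
    ⟨h i, lt_p2_of_top_lt hB (hK.top_lt hB hi), hK.mono _ _ _ (hK.q0 i) (succ_le' hi), hK.pos i,
      rfl, rfl⟩
  obtain ⟨x, a1, a2, a3, a4, a5⟩ := hiter 1 hT1 _ hT0
    (la (h i) * (V t (h i) + V t (h m)) + i)
  obtain ⟨b1, b2, b3, b4⟩ := hfar x m a1 a3 hm
  refine hK.thin (m + 1) (x + h m) (hK.q1 n x m a2 (hu.trans hm)) ?_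
  show md (la (x + h m) + 1) (V (top (x + h m)) (x + h m)) = i
  rw [b3, a4, b4, ← ht, b2, ← hq, hM.congr_add hq0 a5 (V t (h m))]
  refine hM.uniq q _ (V t (h i) + V t (h m)) i (lt1_of_le (hK.le_la hB i)) ?_
  rw [hq]; ring

/-- the principle in the form used: every enumeration has a system -/
def HasSys (N : L2Structure.{u}) [IsModelRCA0 N] : Prop :=
  ∀ W : N.M → N.M → Prop, Enum W → ∃ (p2 top la : N.M → N.M) (md V : N.M → N.M → N.M)
    (h : N.M → N.M) (Q : N.M → N.M → Prop) (i : N.M), Sys p2 top la md W V h Q i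

end Pool.Agent.H965Z.Thin
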