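import Mathlib
import Pool.Agent.H965Z.ThinHT.Core

namespace Pool.Agent.H965Z.Thin

open Pool.Agent.Helper617.RM Pool.Agent.H645R2.R

universe u

set_option linter.unusedSectionVars false
set_option linter.unusedVariables false
set_option linter.unusedTactic false
set_option linter.unreachableTactic false

variable {N : L2Structure.{u}} [IsModelRCA0 N]

/-- the deficiency enumeration of a function -/
def Dk (l : N.M → N.M) (t z : N.M) : Prop := ∃ s', s' < t + 1 ∧ (z < s' ∧ l s' ≤ l z)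

theorem dk_enum {l : N.M → N.M} (hl : GF l) : Enum (Dk l) := by
  have h : D1 (fun v : Ctx N => Dk l (v 0) (v 1)) := by
    unfold Dk
    (repeat' (first | assumption | exact DG.var _ | refine DG.add ?_ ?_ | refine DG.mul ?_ ?_ | refine DG.pr ?_ ?_ | refine dg_el ?_ ?_ | exact DG.const _ | refine DG.app (by assumption) ?_ | refine dg_app2 (by assumption) ?_ ?_ | refine dg_ind ?_ | refine D1.and ?_ ?_ | refine D1.or ?_ ?_ | refine D1.ball ?_ ?_ | refine D1.bex ?_ ?_ | refine D1.iff ?_ ?_ | refine D1.imp ?_ ?_ | refine D1.not ?_ | refine D1.eq ?_ ?_ | refine D1.lt ?_ ?_ | refine D1.le ?_ ?_ | refine d1_dvd ?_ ?_ | refine D1.MemC ?_ ?_ | refine D1.mem ?_ (by assumption) | exact D1.const _))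
  refine ⟨d0_of_D1 h.1 h.2, ?_⟩
  rintro s t z hst ⟨s', h1, h2⟩
  exact ⟨s', lt_of_lt_of_le h1 (by gcongr), h2⟩

section main

variable {p2 top la : N.M → N.M} {md : N.M → N.M → N.M} {l : N.M → N.M}
  {V : N.M → N.M → N.M} {h : N.M → N.M} {Q : N.M → N.M → Prop} {i : N.M}

theorem dbl_succ (n : N.M) : (n + 1) + (n + 1) = n + n + 1 + 1 := by ring

/-- `E n` is the minimum of `l` on the `n`-th double block -/
structure ESys (la h l E : N.M → N.M) : Prop where
  gf : GF E
  ex : ∀ n, ∃ s, la (h (n + n)) ≤ s ∧ s < la (h ((n + 1) + (n + 1))) ∧ l s = E n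
  le : ∀ n s, la (h (n + n)) ≤ s → s < la (h ((n + 1) + (n + 1))) → E n ≤ l s

theorem P_lt (S : Sys p2 top la md (Dk l) V h Q i) (n : N.M) :
    la (h (n + n)) < la (h ((n + 1) + (n + 1))) :=
  (S.blk.la_le_top S.bin _).trans_lt (S.blk.top_lt S.bin (add_lt_add (lt1 n) (lt1 n)))

theorem exists_E (S : Sys p2 top la md (Dk l) V h Q i) (hl : GF l) : ∃ E, ESys la h l E := by
  have hla := S.bin.hla
  have hh := S.blk.gf
  obtain ⟨E, h1, h2⟩ := exists_least (N := N) (R := fun n e =>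
    ∃ s, s < la (h ((n + 1) + (n + 1))) ∧ (la (h (n + n)) ≤ s ∧ l s = e)) (by (repeat' (first | assumption | exact DG.var _ | refine DG.add ?_ ?_ | refine DG.mul ?_ ?_ | refine DG.pr ?_ ?_ | refine dg_el ?_ ?_ | exact DG.const _ | refine DG.app (by assumption) ?_ | refine dg_app2 (by assumption) ?_ ?_ | refine dg_ind ?_ | refine D1.and ?_ ?_ | refine D1.or ?_ ?_ | refine D1.ball ?_ ?_ | refine D1.bex ?_ ?_ | refine D1.iff ?_ ?_ | refine D1.imp ?_ ?_ | refine D1.not ?_ | refine D1.eq ?_ ?_ | refine D1.lt ?_ ?_ | refine D1.le ?_ ?_ | refine d1_dvd ?_ ?_ | refine D1.MemC ?_ ?_ | refine D1.mem ?_ (by assumption) | exact D1.const _)))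
    (fun n => ⟨_, _, P_lt S n, le_rfl, rfl⟩)
  refine ⟨E, h1, fun n => ?_, fun n s a1 a2 => ?_⟩
  · obtain ⟨s, a1, a2, a3⟩ := (h2 n).1
    exact ⟨s, a2, a1, a3⟩
  · by_contra hc
    exact (h2 n).2 _ (not_le.1 hc) ⟨s, a2, a1, rfl⟩

theorem cover (S : Sys p2 top la md (Dk l) V h Q i) {a s : N.M} (ha : la (h (a + a)) ≤ s) :
    ∃ n, a ≤ n ∧ la (h (n + n)) ≤ s ∧ s < la (h ((n + 1) + (n + 1))) := by
  have hla := S.bin.hla
  have hh := S.blk.gf
  have hle : ∀ n : N.M, n ≤ la (h (n + n)) := fun n =>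
    (le_add_of_nonneg_right (zero_le' n)).trans (S.blk.le_la S.bin _)
  obtain ⟨n, h1, h2, h3, h4⟩ := exists_greatest (P := fun n => la (h (n + n)) ≤ s) (by (repeat' (first | assumption | exact DG.var _ | refine DG.add ?_ ?_ | refine DG.mul ?_ ?_ | refine DG.pr ?_ ?_ | refine dg_el ?_ ?_ | exact DG.const _ | refine DG.app (by assumption) ?_ | refine dg_app2 (by assumption) ?_ ?_ | refine dg_ind ?_ | refine D1.and ?_ ?_ | refine D1.or ?_ ?_ | refine D1.ball ?_ ?_ | refine D1.bex ?_ ?_ | refine D1.iff ?_ ?_ | refine D1.imp ?_ ?_ | refine D1.not ?_ | refine D1.eq ?_ ?_ | refine D1.lt ?_ ?_ | refine D1.le ?_ ?_ | refine d1_dvd ?_ ?_ | refine D1.MemC ?_ ?_ | refine D1.mem ?_ (by assumption) | exact D1.const _)))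
    (s + 1) a (lt1_of_le ((hle a).trans ha)) ha
  refine ⟨n, h1, h3, ?_⟩
  by_cases hc : n + 1 < s + 1
  · exact not_le.1 (h4 _ (lt1 n) hc)
  · exact lt_of_lt_of_le (lt1 s) ((not_lt.1 hc).trans (hle _))

/-- one alternation gives a new residue -/
theorem alt_step (S : Sys p2 top la md (Dk l) V h Q i) (hl : GF l) {E : N.M → N.M}
    (hE : ESys la h l E) {j s n m : N.M} (hi : i < s) (hsn : s < n) (hnm : n + 1 < m)
    (hge : ∀ k, s ≤ k → k ≤ m → j ≤ E k) (hs : E s = j) (hs1 : j < E (s + 1))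
    (hn : E (n + 1) = j) :
    ∃ r, r < la (h i) + 1 ∧ RR p2 top la md V h Q i (m + m) ((n + 1) + (n + 1)) r ∧
      ¬ RR p2 top la md V h Q i (m + m) (s + s) r := by
  have hB := S.bin
  have hK := S.blk
  have hlow : ∀ s', la (h (s + s)) ≤ s' → s' ≤ top (h (m + m)) → j ≤ l s' := by
    intro s' a1 a2
    obtain ⟨k, b1, b2, b3⟩ := cover S a1
    refine (hge k b1 ?_).trans (hE.le k s' b2 b3)
    by_contra hc
    have c1 : m + m < k + k := add_lt_add (not_le.1 hc) (not_le.1 hc)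
    exact absurd (b2.trans a2) (not_le_of_gt (hK.top_lt hB c1))
  have hs1n : s + 1 ≤ n := succ_le' hsn
  obtain ⟨s0, e1, e2, e3⟩ := hE.ex s
  rw [hs] at e3
  refine core S (u := (s + 1) + (s + 1)) (lt_of_lt_of_le hi (le_add_of_nonneg_right (zero_le' s)))
    (add_le_add (lt1 s).le (lt1 s).le) ?_ ?_ ?_ ?_
  · rw [← dbl_succ]
    gcongr
  · have : s + 1 ≤ m := hs1n.trans ((lt1 n).trans hnm).le
    gcongr
  · rintro ⟨z, z1, ⟨s', z2, z3, z4⟩, z5⟩
    have f1 : l z < j := by
      by_contra hc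
      exact z5 ⟨s0, e2.trans (lt1 _), z1.trans_le e1, by rw [e3]; exact not_lt.1 hc⟩
    by_cases hc : s' < la (h ((s + 1) + (s + 1))) + 1
    · exact z5 ⟨s', hc, z3, z4⟩
    · have f2 : la (h (s + s)) ≤ s' := (P_lt S s).le.trans ((lt1 _).le.trans (not_lt.1 hc))
      exact absurd ((hlow s' f2 (le_of_lt1 z2)).trans z4) (not_le_of_gt f1)
  · obtain ⟨z, z1, z2, z3, z4⟩ := exists_greatest (P := fun z => l z ≤ j) (by (repeat' (first | assumption | exact DG.var _ | refine DG.add ?_ ?_ | refine DG.mul ?_ ?_ | refine DG.pr ?_ ?_ | refine dg_el ?_ ?_ | exact DG.const _ | refine DG.app (by assumption) ?_ | refine dg_app2 (by assumption) ?_ ?_ | refine dg_ind ?_ | refine D1.and ?_ ?_ | refine D1.or ?_ ?_ | refine D1.ball ?_ ?_ | refine D1.bex ?_ ?_ | refine D1.iff ?_ ?_ | refine D1.imp ?_ ?_ | refine D1.not ?_ | refine D1.eq ?_ ?_ | refine D1.lt ?_ ?_ | refine D1.le ?_ ?_ | refine d1_dvd ?_ ?_ | refine D1.MemC ?_ ?_ | refine D1.mem ?_ (by assumption) | exact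 D1.const _)))
      (la (h ((s + 1) + (s + 1)))) s0 e2 e3.le
    have f0 : j ≤ l z := by
      rw [← hs]
      exact hE.le s z (e1.trans z1) z2
    refine ⟨z, (z2.trans_le (hK.la_le_top hB _)).trans (lt1 _), ?_, ?_⟩
    · obtain ⟨s1, g1, g2, g3⟩ := hE.ex (n + 1)
      refine ⟨s1, lt1_of_le (g2.le.trans ((hK.la_mono hB ?_).trans (hK.la_le_top hB _))), ?_, ?_⟩
      · have := succ_le' hnm
        gcongr
      · refine z2.trans_le ((hK.la_mono hB ?_).trans g1)
        have : s + 1 ≤ n + 1 := hs1n.trans (lt1 n).le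
        gcongr
      · rw [g3, hn]; exact f0
    · rintro ⟨s', g1, g2, g3⟩
      by_cases hc : s' < la (h ((s + 1) + (s + 1)))
      · exact z4 s' g2 hc (g3.trans z3)
      · have g4 : s' < la (h ((s + 1 + 1) + (s + 1 + 1))) := by
          refine lt_of_le_of_lt (le_of_lt1 g1) ?_
          rw [dbl_succ (s + 1)]
          exact hK.la_succ hB _
        exact absurd ((hE.le (s + 1) s' (not_lt.1 hc) g4).trans (g3.trans z3)) (not_le_of_gt hs1)

theorem descents (S : Sys p2 top la md (Dk l) V h Q i) (hl : GF l) {E : N.M → N.M}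
    (hE : ESys la h l E) {B : N.M} (hB : ∀ s, l s ≤ B) {C : N.M → N.M} (hC : GF C)
    (hCs : ∀ n, C (n + 1) = C n + ind (E (n + 1) < E n)) :
    ∃ y, ∀ m, i + 1 ≤ m → C m ≤ y := by
  have hEg := hE.gf
  obtain ⟨mq, Bq, hP⟩ := exists_potData (la (h i) + 1)
  obtain ⟨F, hF, hF0, hFs⟩ := prec1 (N := N) (fun n y => (Bq + 1 + 1) * (y + 1))
    (by unfold GF2; (repeat' (first | assumption | exact DG.var _ | refine DG.add ?_ ?_ | refine DG.mul ?_ ?_ | refine DG.pr ?_ ?_ | refine dg_el ?_ ?_ | exact DG.const _ | refine DG.app (by assumption) ?_ | refine dg_app2 (by assumption) ?_ ?_ | refine dg_ind ?_ | refine D1.and ?_ ?_ | refine D1.or ?_ ?_ | refine D1.ball ?_ ?_ | refine D1.bex ?_ ?_ | refine D1.iff ?_ ?_ | refine D1.imp ?_ ?_ | refine D1.not ?_ | refine D1.eq ?_ ?_ | refine D1.lt ?_ ?_ | refine D1.le ?_ ?_ | refine d1_dvd ?_ ?_ | refine D1.MemC ?_ ?_ | refine D1.mem ?_ (by assumption) | exact D1.const _)))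
  have hEB : ∀ n, E n ≤ B := fun n => by
    obtain ⟨s, _, _, e⟩ := hE.ex n
    rw [← e]; exact hB s
  have hC1 : ∀ n, C (n + 1) ≤ C n + 1 := fun n => by
    rw [hCs]; have := ind_le (N := N) (E (n + 1) < E n); gcongr
  have hC0 : ∀ n, E n ≤ E (n + 1) → C (n + 1) = C n := fun n hn => by
    rw [hCs, ind_neg (not_lt.2 hn), add_zero]
  have claim : ∀ e, ∀ a m, e ≤ B + 1 → i < a → a ≤ m →
      (∀ n, n < m + 1 → a ≤ n → B + 1 ≤ E n + e) → C m ≤ C a + F e := by
    intro e
    refine ind_P1 (P := fun e => ∀ a m, e ≤ B + 1 → i < a → a ≤ m →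
      (∀ n, n < m + 1 → a ≤ n → B + 1 ≤ E n + e) → C m ≤ C a + F e) ?_ ?_ ?_ e
    · refine S1.congr (R := fun v => ∃ a, ∃ m, ¬ (v 0 ≤ B + 1 → i < a → a ≤ m →
        (∀ n, n < m + 1 → a ≤ n → B + 1 ≤ E n + v 0) → C m ≤ C a + F (v 0))) ?_ fun v => ?_
      · refine S1.ex (S1.ex (d1_s1 ?_))
        (repeat' (first | assumption | exact DG.var _ | refine DG.add ?_ ?_ | refine DG.mul ?_ ?_ | refine DG.pr ?_ ?_ | refine dg_el ?_ ?_ | exact DG.const _ | refine DG.app (by assumption) ?_ | refine dg_app2 (by assumption) ?_ ?_ | refine dg_ind ?_ | refine D1.and ?_ ?_ | refine D1.or ?_ ?_ | refine D1.ball ?_ ?_ | refine D1.bex ?_ ?_ | refine D1.iff ?_ ?_ | refine D1.imp ?_ ?_ | refine D1.not ?_ | refine D1.eq ?_ ?_ | refine D1.lt ?_ ?_ | refine D1.le ?_ ?_ | refine d1_dvd ?_ ?_ | refine D1.MemC ?_ ?_ | refine D1.mem ?_ (by assumption) | exact D1.const _))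
      · simp only [not_forall]
    · intro a m _ _ ham hn
      have := hn a (lt1_of_le ham) le_rfl
      rw [add_zero] at this
      exact absurd (hEB a) (not_le_of_gt (lt_of_lt_of_le (lt1 B) this))
    · intro e ih a m he hia ham hn
      obtain ⟨j, hj⟩ := exists_sub (le_of_add_le_add_right he : e ≤ B)
      have hge : ∀ n, a ≤ n → n ≤ m → j ≤ E n := by
        intro n a1 a2
        have := hn n (lt1_of_le a2) a1
        rw [hj, show e + j + 1 = j + (e + 1) by ring] at this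
        exact le_of_add_le_add_right this
      have ih' : ∀ a' m', i < a' → a' ≤ m' → (∀ n, a' ≤ n → n ≤ m' → j < E n) →
          C m' ≤ C a' + F e := by
        intro a' m' a1 a2 a3
        refine ih a' m' ((lt1 e).le.trans he) a1 a2 fun n b1 b2 => ?_
        have := succ_le' (a3 n b2 (le_of_lt1 b1))
        rw [hj, show e + j + 1 = (j + 1) + e by ring]
        gcongr
      rw [hFs]
      set G := F e with hG
      have run : ∀ s n, i < s → s ≤ n → E s = j → (∀ n1, s < n1 → n1 ≤ n → j < E n1) →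
          C n ≤ C s + G := by
        intro s n a1 a2 a3 a4
        rcases lt_or_eq_of_le a2 with a5 | a5
        · have b1 := ih' (s + 1) n (a1.trans (lt1 s)) (succ_le' a5)
            fun n1 c1 c2 => a4 n1 (lt_of_lt_of_le (lt1 s) c1) c2
          rwa [hC0 s (by rw [a3]; exact (a4 _ (lt1 s) (succ_le' a5)).le)] at b1
        · rw [a5]; exact le_add_of_nonneg_right (zero_le' _)
      have hGle : G + 1 ≤ (Bq + 1 + 1) * (G + 1) := by
        rw [show (Bq + 1 + 1) * (G + 1) = (G + 1) + (Bq + 1) * (G + 1) by ring]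
        exact le_add_of_nonneg_right (zero_le' _)
      by_cases hex : ∃ n, a ≤ n ∧ (n ≤ m ∧ E n = j)
      swap
      · refine (ih' a m hia ham fun n a1 a2 => ?_).trans ?_
        · exact lt_of_le_of_ne (hge n a1 a2) fun e => hex ⟨n, a1, a2, e.symm⟩
        · have := (lt1 G).le.trans hGle
          gcongr
      obtain ⟨n0, hn0⟩ := hex
      obtain ⟨a', _, ⟨ha1, ha2, ha3⟩, ha4⟩ := lnp_S1 (P := fun n => a ≤ n ∧ (n ≤ m ∧ E n = j))
        (d1_s1 (by (repeat' (first | assumption | exact DG.var _ | refine DG.add ?_ ?_ | refine DG.mul ?_ ?_ | refine DG.pr ?_ ?_ | refine dg_el ?_ ?_ | exact DG.const _ | refine DG.app (by assumption) ?_ | refine dg_app2 (by assumption) ?_ ?_ | refine dg_ind ?_ | refine D1.and ?_ ?_ | refine D1.or ?_ ?_ | refine D1.ball ?_ ?_ | refine D1.bex ?_ ?_ | refine D1.iff ?_ ?_ | refine D1.imp ?_ ?_ | refine D1.not ?_ | refine D1.eq ?_ ?_ | refine D1.lt ?_ ?_ | refine D1.le ?_ ?_ | refine d1_dvd ?_ ?_ | refine D1.MemC ?_ ?_ | refine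 D1.mem ?_ (by assumption) | exact D1.const _)))) n0 hn0
      have hia' : i < a' := hia.trans_le ha1
      have hCa' : C a' ≤ C a + (G + 1) := by
        rcases lt_or_eq_of_le ha1 with a5 | a5
        · obtain ⟨d, hd⟩ := (lt_iff_add'' _ _).1 a5
          have b0 : a + d < a' := by rw [hd]; exact lt1 _
          have b1 := ih' a (a + d) hia (le_add_of_nonneg_right (zero_le' _)) fun n c1 c2 =>
            lt_of_le_of_ne (hge n c1 (c2.trans (b0.le.trans ha2)))
              fun e => ha4 n (c2.trans_lt b0) ⟨c1, c2.trans (b0.le.trans ha2), e.symm⟩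
          rw [hd]
          calc C (a + d + 1) ≤ C (a + d) + 1 := hC1 _
            _ ≤ C a + G + 1 := by gcongr
            _ = _ := by ring
        · rw [← a5]; exact le_add_of_nonneg_right (zero_le' _)
      rcases lt_or_eq_of_le ha2 with a5 | a5
      swap
      · rw [← a5]
        refine hCa'.trans ?_
        gcongr
      have inner : ∀ d, a' + d < m → ∃ s, s < a' + d + 1 ∧ (a' ≤ s ∧ (E s = j ∧
          ((∀ n1, n1 < a' + d + 1 → s < n1 → j < E n1) ∧ ∃ k, k < Bq + 1 ∧
            (Pot (la (h i) + 1) mq Bq (RR p2 top la md V h Q i (m + m) (s + s)) k ∧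
              C s ≤ C a' + k * (G + 1))))) := by
        intro d
        refine ind_S1 (P := fun d => a' + d < m → ∃ s, s < a' + d + 1 ∧ (a' ≤ s ∧ (E s = j ∧
          ((∀ n1, n1 < a' + d + 1 → s < n1 → j < E n1) ∧ ∃ k, k < Bq + 1 ∧
            (Pot (la (h i) + 1) mq Bq (RR p2 top la md V h Q i (m + m) (s + s)) k ∧
              C s ≤ C a' + k * (G + 1)))))) (d1_s1 ?_) ?_ ?_ d
        · unfold Pot
          (repeat' (first | assumption | refine RR_D1 S ?_ ?_ ?_ | exact DG.var _ | refine DG.add ?_ ?_ | refine DG.mul ?_ ?_ | refine DG.pr ?_ ?_ | refine dg_el ?_ ?_ | exact DG.const _ | refine DG.app (by assumption) ?_ | refine dg_app2 (by assumption) ?_ ?_ | refine dg_ind ?_ | refine D1.and ?_ ?_ | refine D1.or ?_ ?_ | refine D1.ball ?_ ?_ | refine D1.bex ?_ ?_ | refine D1.iff ?_ ?_ | refine D1.imp ?_ ?_ | refine D1.not ?_ | refine D1.eq ?_ ?_ | refine D1.lt ?_ ?_ | refine D1.le ?_ ?_ | refine d1_dvd ?_ ?_ | refine D1.MemC ?_ ?_ | refine D1.mem ?_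 (by assumption) | exact D1.const _))
        · intro _
          rw [add_zero]
          exact ⟨a', lt1 _, le_rfl, ha3, fun n1 c1 c2 => absurd (le_of_lt1 c1) (not_le_of_gt c2),
            0, succ_pos' _, pot_zero _ _ _ _, le_add_of_nonneg_right (zero_le' _)⟩
        · intro d ihd hd
          rw [← add_assoc] at hd ⊢
          obtain ⟨s, s1, s2, s3, s4, k, k1, k2, k3⟩ := ihd ((lt1 _).trans hd)
          set n := a' + d with hndef
          have han : a' ≤ n := le_add_of_nonneg_right (zero_le' _)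
          have hjn : j ≤ E (n + 1) := hge _ (ha1.trans (han.trans (lt1 n).le)) hd.le
          rcases lt_or_eq_of_le hjn with c1 | c1
          · refine ⟨s, s1.trans (lt1 _), s2, s3, fun n1 c2 c3 => ?_, k, k1, k2, k3⟩
            rcases lt_or_eq_of_le (le_of_lt1 c2) with c4 | c4
            · exact s4 n1 c4 c3
            · rw [c4]; exact c1
          · refine ⟨n + 1, lt1 _, han.trans (lt1 n).le, c1.symm,
              fun n1 c2 c3 => absurd (le_of_lt1 c2) (not_le_of_gt c3), ?_⟩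
            have hmono : ∀ r, RR p2 top la md V h Q i (m + m) (s + s) r →
                RR p2 top la md V h Q i (m + m) ((n + 1) + (n + 1)) r :=
              fun r hr => RR_mono S (add_le_add s1.le s1.le) hr
            rcases lt_or_eq_of_le (le_of_lt1 s1) with c4 | c4
            · obtain ⟨r, r1, r2, r3⟩ := alt_step S hl hE (hia'.trans_le s2) c4 hd
                (fun k c5 c6 => hge k (ha1.trans (s2.trans c5)) c6) s3
                (s4 _ (lt1_of_le (succ_le' c4)) (lt1 s)) c1.symm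
              have k4 := pot_succ hP hmono r1 r2 r3 k2
              refine ⟨k + 1, lt1_of_le (pot_le hP k4), k4, ?_⟩
              have k5 := run s n (hia'.trans_le s2) c4.le s3
                fun n1 c5 c6 => s4 n1 (lt1_of_le c6) c5
              calc C (n + 1) ≤ C n + 1 := hC1 n
                _ ≤ C s + G + 1 := by gcongr
                _ ≤ C a' + k * (G + 1) + G + 1 := by gcongr
                _ = _ := by ring
            · refine ⟨k, k1, pot_mono hmono k2, ?_⟩
              rw [hC0 n (by rw [← c4, s3, c4]; exact hjn), ← c4]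
              exact k3
      obtain ⟨d, hd⟩ := (lt_iff_add'' _ _).1 a5
      obtain ⟨s, s1, s2, s3, s4, k, k1, k2, k3⟩ := inner d (by rw [hd]; exact lt1 _)
      have k5 := run s (a' + d) (hia'.trans_le s2) (le_of_lt1 s1) s3
        fun n1 c5 c6 => s4 n1 (lt1_of_le c6) c5
      have k6 : k ≤ Bq := le_of_lt1 k1
      calc C m = C (a' + d + 1) := by rw [← hd]
        _ ≤ C (a' + d) + 1 := hC1 _
        _ ≤ C s + G + 1 := by gcongr
        _ ≤ C a' + k * (G + 1) + G + 1 := by gcongr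
        _ ≤ C a + (G + 1) + Bq * (G + 1) + G + 1 := by
          have := zero_le' (G + 1)
          gcongr
        _ = _ := by ring
  refine ⟨C (i + 1) + F (B + 1), fun m hm => claim (B + 1) (i + 1) m le_rfl (lt1 i) hm ?_⟩
  intro n _ _
  exact le_add_of_nonneg_left (zero_le' _)

end main

/-- a bounded function has a lower limit -/
theorem liminf (H : HasSys N) {l : N.M → N.M} (hl : GF l) {B : N.M} (hB : ∀ s, l s ≤ B) :
    ∃ j s0, (∀ s, s0 ≤ s → j ≤ l s) ∧ ∀ b, ∃ s, b ≤ s ∧ l s = j := by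
  obtain ⟨p2, top, la, md, V, h, Q, i, S⟩ := H (Dk l) (dk_enum hl)
  obtain ⟨E, hE⟩ := exists_E S hl
  have hEg := hE.gf
  obtain ⟨C, hC, hC0, hCs⟩ := prec1 (N := N) (fun n y => y + ind (E (n + 1) < E n))
    (by unfold GF2; (repeat' (first | assumption | exact DG.var _ | refine DG.add ?_ ?_ | refine DG.mul ?_ ?_ | refine DG.pr ?_ ?_ | refine dg_el ?_ ?_ | exact DG.const _ | refine DG.app (by assumption) ?_ | refine dg_app2 (by assumption) ?_ ?_ | refine dg_ind ?_ | refine D1.and ?_ ?_ | refine D1.or ?_ ?_ | refine D1.ball ?_ ?_ | refine D1.bex ?_ ?_ | refine D1.iff ?_ ?_ | refine D1.imp ?_ ?_ | refine D1.not ?_ | refine D1.eq ?_ ?_ | refine D1.lt ?_ ?_ | refine D1.le ?_ ?_ | refine d1_dvd ?_ ?_ | refine D1.MemC ?_ ?_ | refine D1.mem ?_ (by assumption) | exact D1.const _)))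
  obtain ⟨y, hy⟩ := descents S hl hE hB hC hCs
  obtain ⟨m0, hm0, hmax⟩ := exists_max hC (i + 1) y hy
  have hCmono : ∀ d, C m0 ≤ C (m0 + d) := by
    intro d
    refine ind_S1 (P := fun d => C m0 ≤ C (m0 + d)) (d1_s1 (by (repeat' (first | assumption | exact DG.var _ | refine DG.add ?_ ?_ | refine DG.mul ?_ ?_ | refine DG.pr ?_ ?_ | refine dg_el ?_ ?_ | exact DG.const _ | refine DG.app (by assumption) ?_ | refine dg_app2 (by assumption) ?_ ?_ | refine dg_ind ?_ | refine D1.and ?_ ?_ | refine D1.or ?_ ?_ | refine D1.ball ?_ ?_ | refine D1.bex ?_ ?_ | refine D1.iff ?_ ?_ | refine D1.imp ?_ ?_ | refine D1.not ?_ | refine D1.eq ?_ ?_ | refine D1.lt ?_ ?_ | refine D1.le ?_ ?_ | refine d1_dvd ?_ ?_ | refine D1.MemC ?_ ?_ | refine D1.mem ?_ (by assumption) | exact D1.const _)))) ?_ ?_ d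
    · rw [add_zero]
    · intro d ih
      rw [← add_assoc, hCs]
      exact ih.trans (le_add_of_nonneg_right (zero_le' _))
  have hasc : ∀ m, m0 ≤ m → E m ≤ E (m + 1) := by
    intro m hm
    by_contra hc
    have h1 := hmax (m + 1) (hm0.trans (hm.trans (lt1 m).le))
    rw [hCs, ind_pos (not_le.1 hc)] at h1
    obtain ⟨d, rfl⟩ := exists_sub hm
    exact absurd (hCmono d) (not_le_of_gt (lt_of_lt_of_le (lt1 _) h1))
  have hEB : ∀ n, E n ≤ B := fun n => by
    obtain ⟨s, _, _, e⟩ := hE.ex n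
    rw [← e]; exact hB s
  obtain ⟨m1, hm1, hmax1⟩ := exists_max hEg m0 B fun m _ => hEB m
  have hEc : ∀ m, m1 ≤ m → E m = E m1 := by
    intro m hm
    refine le_antisymm (hmax1 m (hm1.trans hm)) ?_
    obtain ⟨d, rfl⟩ := exists_sub hm
    clear hm
    refine ind_S1 (P := fun d => E m1 ≤ E (m1 + d)) (d1_s1 (by (repeat' (first | assumption | exact DG.var _ | refine DG.add ?_ ?_ | refine DG.mul ?_ ?_ | refine DG.pr ?_ ?_ | refine dg_el ?_ ?_ | exact DG.const _ | refine DG.app (by assumption) ?_ | refine dg_app2 (by assumption) ?_ ?_ | refine dg_ind ?_ | refine D1.and ?_ ?_ | refine D1.or ?_ ?_ | refine D1.ball ?_ ?_ | refine D1.bex ?_ ?_ | refine D1.iff ?_ ?_ | refine D1.imp ?_ ?_ | refine D1.not ?_ | refine D1.eq ?_ ?_ | refine D1.lt ?_ ?_ | refine D1.le ?_ ?_ | refine d1_dvd ?_ ?_ | refine D1.MemC ?_ ?_ | refine D1.mem ?_ (by assumption) | exact D1.const _)))) ?_ ?_ d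
    · rw [add_zero]
    · intro d ih
      rw [← add_assoc]
      exact ih.trans (hasc _ (hm1.trans (le_add_of_nonneg_right (zero_le' _))))
  refine ⟨E m1, la (h (m1 + m1)), fun s hs => ?_, fun b => ?_⟩
  · obtain ⟨n, a1, a2, a3⟩ := cover S hs
    rw [← hEc n a1]
    exact hE.le n s a2 a3
  · obtain ⟨s, a1, a2, a3⟩ := hE.ex (m1 + b)
    refine ⟨s, le_trans ?_ a1, by rw [a3]; exact hEc _ (le_add_of_nonneg_right (zero_le' _))⟩
    refine le_trans ?_ (S.blk.le_la S.bin _)
    rw [show m1 + b + (m1 + b) = b + (m1 + b + m1) by ring]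
    exact le_add_of_nonneg_right (zero_le' _)

end Pool.Agent.H965Z.Thin
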