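import Mathlib
import Pool.Agent.H965Z.ThinHT.LimInf

namespace Pool.Agent.H965Z.Thin

open Pool.Agent.Helper617.RM Pool.Agent.H645R2.R

universe u

set_option linter.unusedSectionVars false
set_option linter.unusedVariables false
set_option linter.unusedTactic false
set_option linter.unreachableTactic false

variable {N : L2Structure.{u}} [IsModelRCA0 N]

/-- the guess for the least witness is confirmed at stage `s` -/
def Conf (θ : N.M → N.M → N.M → Prop) (k s : N.M) : Prop :=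
  ∃ x, x < s + 1 ∧ ((∀ y, y < s + 1 → θ k x y) ∧ ∀ x', x' < x → ∃ y, y < s ∧ ¬ θ k x' y)

theorem conf_of {θ : N.M → N.M → N.M → Prop} (hθ : D1 (fun v => θ (v 0) (v 1) (v 2))) {k : N.M}
    (h : ∃ x, ∀ y, θ k x y) : ∃ s0, ∀ s, s0 ≤ s → Conf θ k s := by
  obtain ⟨x0, hx0⟩ := h
  obtain ⟨x, _, h1, h2⟩ := lnp_P1 (P := fun x => ∀ y, θ k x y) (by
    refine S1.congr (R := fun v => ∃ y, ¬ θ k (v 0) y) ?_ fun v => ?_
    · refine S1.ex (d1_s1 ?_)
      (repeat' (first | assumption | refine D1.app3 hθ ?_ ?_ ?_ | exact DG.var _ | refine DG.add ?_ ?_ | refine DG.mul ?_ ?_ | refine DG.pr ?_ ?_ | refine dg_el ?_ ?_ | exact DG.const _ | refine DG.app (by assumption) ?_ | refine dg_app2 (by assumption) ?_ ?_ | refine dg_ind ?_ | refine D1.and ?_ ?_ | refine D1.or ?_ ?_ | refine D1.ball ?_ ?_ | refine D1.bex ?_ ?_ | refine D1.iff ?_ ?_ | refine D1.imp ?_ ?_ | refine D1.not ?_ | refine D1.eq ?_ ?_ | refine D1.lt ?_ ?_ | refine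 D1.le ?_ ?_ | refine d1_dvd ?_ ?_ | refine D1.MemC ?_ ?_ | refine D1.mem ?_ (by assumption) | exact D1.const _))
    · simp only [not_forall]) x0 hx0
  have hd : D1 (fun v : Ctx N => ¬ θ k (v 0) (v 1)) := by
    (repeat' (first | assumption | refine D1.app3 hθ ?_ ?_ ?_ | exact DG.var _ | refine DG.add ?_ ?_ | refine DG.mul ?_ ?_ | refine DG.pr ?_ ?_ | refine dg_el ?_ ?_ | exact DG.const _ | refine DG.app (by assumption) ?_ | refine dg_app2 (by assumption) ?_ ?_ | refine dg_ind ?_ | refine D1.and ?_ ?_ | refine D1.or ?_ ?_ | refine D1.ball ?_ ?_ | refine D1.bex ?_ ?_ | refine D1.iff ?_ ?_ | refine D1.imp ?_ ?_ | refine D1.not ?_ | refine D1.eq ?_ ?_ | refine D1.lt ?_ ?_ | refine D1.le ?_ ?_ | refine d1_dvd ?_ ?_ | refine D1.MemC ?_ ?_ | refine D1.mem ?_ (by assumption) | exact D1.const _))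
  obtain ⟨b, hb⟩ := bounding (Q := fun x' y => ¬ θ k x' y)
    (D0.rel (R := fun x' y => ¬ θ k x' y) (d0_of_D1 (R := fun x' y => ¬ θ k x' y) hd.1 hd.2) (Tm.var 1) (Tm.var 0)) x
    (fun x' hx' => by simpa only [not_forall] using h2 x' hx')
  refine ⟨max x b, fun s hs => ⟨x, lt1_of_le ((le_max_left _ _).trans hs), fun y _ => h1 y,
    fun x' hx' => ?_⟩⟩
  obtain ⟨y, a1, a2⟩ := hb x' hx'
  exact ⟨y, a1.trans_le ((le_max_right _ _).trans hs), a2⟩

theorem of_conf {θ : N.M → N.M → N.M → Prop} (hθ : D1 (fun v => θ (v 0) (v 1) (v 2)))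
    {k s0 : N.M} (h : ∀ s, s0 ≤ s → Conf θ k s) : ∃ x, ∀ y, θ k x y := by
  obtain ⟨x, _, h1, h2⟩ := h s0 le_rfl
  have key : ∀ d, (∀ y, y < s0 + d + 1 → θ k x y) := by
    intro d
    refine ind_S1 (P := fun d => ∀ y, y < s0 + d + 1 → θ k x y) (d1_s1 ?_) ?_ ?_ d
    · (repeat' (first | assumption | refine D1.app3 hθ ?_ ?_ ?_ | exact DG.var _ | refine DG.add ?_ ?_ | refine DG.mul ?_ ?_ | refine DG.pr ?_ ?_ | refine dg_el ?_ ?_ | exact DG.const _ | refine DG.app (by assumption) ?_ | refine dg_app2 (by assumption) ?_ ?_ | refine dg_ind ?_ | refine D1.and ?_ ?_ | refine D1.or ?_ ?_ | refine D1.ball ?_ ?_ | refine D1.bex ?_ ?_ | refine D1.iff ?_ ?_ | refine D1.imp ?_ ?_ | refine D1.not ?_ | refine D1.eq ?_ ?_ | refine D1.lt ?_ ?_ | refine D1.le ?_ ?_ | refine d1_dvd ?_ ?_ | refine D1.MemC ?_ ?_ | refine D1.mem ?_ (by assumption) | exact D1.const _))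
    · rw [add_zero]; exact h1
    · intro d ih
      rw [← add_assoc]
      obtain ⟨x1, _, g1, g2⟩ := h (s0 + d + 1)
        (by rw [add_assoc]; exact le_add_of_nonneg_right (zero_le' _))
      rcases lt_trichotomy x x1 with c | c | c
      · obtain ⟨y, a1, a2⟩ := g2 x c
        exact absurd (ih y a1) a2
      · rw [c]; exact g1
      · obtain ⟨y, a1, a2⟩ := h2 x1 c
        refine absurd (g1 y (a1.trans_le ?_)) a2
        rw [show s0 + d + 1 + 1 = s0 + (d + 1 + 1) by ring]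
        exact le_add_of_nonneg_right (zero_le' _)
  refine ⟨x, fun y => key y y (lt1_of_le (le_add_of_nonneg_left (zero_le' _)))⟩

/-- `Σ⁰₂` induction -/
theorem ind_S2 (H : HasSys N) {θ : N.M → N.M → N.M → Prop}
    (hθ : D1 (fun v => θ (v 0) (v 1) (v 2))) (h0 : ∃ x, ∀ y, θ 0 x y)
    (hs : ∀ k, (∃ x, ∀ y, θ k x y) → ∃ x, ∀ y, θ (k + 1) x y) (B : N.M) : ∃ x, ∀ y, θ B x y := by
  by_contra hB
  obtain ⟨l, hl, hls⟩ := exists_least (N := N) (R := fun s k => ¬ Conf θ k s ∨ k = B + 1)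
    (by
      unfold Conf
      (repeat' (first | assumption | refine D1.app3 hθ ?_ ?_ ?_ | exact DG.var _ | refine DG.add ?_ ?_ | refine DG.mul ?_ ?_ | refine DG.pr ?_ ?_ | refine dg_el ?_ ?_ | exact DG.const _ | refine DG.app (by assumption) ?_ | refine dg_app2 (by assumption) ?_ ?_ | refine dg_ind ?_ | refine D1.and ?_ ?_ | refine D1.or ?_ ?_ | refine D1.ball ?_ ?_ | refine D1.bex ?_ ?_ | refine D1.iff ?_ ?_ | refine D1.imp ?_ ?_ | refine D1.not ?_ | refine D1.eq ?_ ?_ | refine D1.lt ?_ ?_ | refine D1.le ?_ ?_ | refine d1_dvd ?_ ?_ | refine D1.MemC ?_ ?_ | refine D1.mem ?_ (by assumption) | exact D1.const _))) (fun s => ⟨B + 1, Or.inr rfl⟩)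
  have hlB : ∀ s, l s ≤ B + 1 := fun s => by
    by_contra hc
    exact (hls s).2 _ (not_le.1 hc) (Or.inr rfl)
  obtain ⟨j, s0, h1, h2⟩ := liminf H hl hlB
  have hlt : ∀ k, k < j → ∃ x, ∀ y, θ k x y := by
    intro k hk
    refine of_conf hθ (s0 := s0) fun s hs => ?_
    by_contra hc
    exact (hls s).2 k (hk.trans_le (h1 s hs)) (Or.inl hc)
  have hjB : j ≤ B := by
    by_contra hc
    exact hB (hlt B (not_le.1 hc))
  have hj : ∃ x, ∀ y, θ j x y := by
    rcases eq_zero_or_succ j with e | ⟨j', e⟩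
    · rw [e]; exact h0
    · rw [e]; exact hs j' (hlt j' (by rw [e]; exact lt1 j'))
  obtain ⟨s1, hs1⟩ := conf_of hθ hj
  obtain ⟨s, a1, a2⟩ := h2 s1
  rcases (hls s).1 with c | c
  · rw [a2] at c
    exact c (hs1 s a1)
  · rw [a2] at c
    exact absurd hjB (by rw [c]; exact not_le_of_gt (lt1 B))

theorem settled (H : HasSys N) {p2 top la : N.M → N.M} {md : N.M → N.M → N.M}
    {W : N.M → N.M → Prop} {V : N.M → N.M → N.M} {h : N.M → N.M} {Q : N.M → N.M → Prop} {i : N.M}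
    (S : Sys p2 top la md W V h Q i) :
    ∃ n0, ∀ n, n0 ≤ n → ∀ t, ¬ Ev W (top (h n) + 1) (la (h (n + 1))) t := by
  by_contra hcon
  push Not at hcon
  have hB := S.bin
  have hK := S.blk
  have hW := S.enum
  have hla := hB.hla
  have hh := hK.gf
  obtain ⟨mq, Bq, hP⟩ := exists_potData (la (h i) + 1)
  have hbd : ∀ n' t0, ∃ n, n' ≤ n ∧ t0 ≤ n ∧ ∀ t, ¬ Ev W (la (h n')) (la (h n)) t := by
    intro n' t0
    obtain ⟨M, a1, a2⟩ := bd N W hW (la (h n')) (max n' t0)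
    refine ⟨M, (le_max_left _ _).trans a1, (le_max_right _ _).trans a1, ?_⟩
    rintro t ⟨z, b1, b2, b3⟩
    exact b3 (hW.mono _ _ _ (hK.le_la hB M) (a2 z b1 t b2))
  have hpr : ∀ w n : N.M, w < pr w n + 1 ∧ n < pr w n + 1 := fun w n =>
    ⟨lt1_of_le (fst_le_pr w n), lt1_of_le (snd_le_pr w n)⟩
  have key := ind_S2 H (θ := fun k x m => ∃ n', n' < x + 1 ∧ ∃ n, n < x + 1 ∧ (x = pr n' n ∧
      (i < n' ∧ (n' ≤ n ∧ (¬ Ev W (la (h n')) (la (h n)) m ∧
        (n ≤ m → Pot (la (h i) + 1) mq Bq (RR p2 top la md V h Q i m n') k))))))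
    (by
      unfold Pot
      (repeat' (first | assumption | refine RR_D1 S ?_ ?_ ?_ | refine ev_D1 hW ?_ ?_ ?_ | exact DG.var _ | refine DG.add ?_ ?_ | refine DG.mul ?_ ?_ | refine DG.pr ?_ ?_ | refine dg_el ?_ ?_ | exact DG.const _ | refine DG.app (by assumption) ?_ | refine dg_app2 (by assumption) ?_ ?_ | refine dg_ind ?_ | refine D1.and ?_ ?_ | refine D1.or ?_ ?_ | refine D1.ball ?_ ?_ | refine D1.bex ?_ ?_ | refine D1.iff ?_ ?_ | refine D1.imp ?_ ?_ | refine D1.not ?_ | refine D1.eq ?_ ?_ | refine D1.lt ?_ ?_ | refine D1.le ?_ ?_ | refine d1_dvd ?_ ?_ | refine D1.MemC ?_ ?_ | refine D1.mem ?_ (by assumption) | exact D1.const _)))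
    (by
      obtain ⟨n, a1, _, a3⟩ := hbd (i + 1) 0
      exact ⟨pr (i + 1) n, fun m => ⟨i + 1, (hpr _ _).1, n, (hpr _ _).2, rfl, lt1 i, a1, a3 m,
        fun _ => pot_zero _ _ _ _⟩⟩)
    (by
      rintro k ⟨x, hx⟩
      obtain ⟨n', _, n, _, e, a1, a2, _⟩ := hx 0
      subst e
      have hx' : ∀ m, ¬ Ev W (la (h n')) (la (h n)) m ∧
          (n ≤ m → Pot (la (h i) + 1) mq Bq (RR p2 top la md V h Q i m n') k) := by
        intro m
        obtain ⟨n1', _, n1, _, e, _, _, b⟩ := hx m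
        obtain ⟨e1, e2⟩ := pr_inj e
        rw [e1, e2]
        exact b
      obtain ⟨u, u1, t0, u2⟩ := hcon n
      obtain ⟨n3, c1, c2, c3⟩ := hbd (u + 1 + 1) t0
      have hu2 : u ≤ u + 1 + 1 := (lt1 u).le.trans (lt1 _).le
      refine ⟨pr (u + 1 + 1) n3, fun m => ⟨u + 1 + 1, (hpr _ _).1, n3, (hpr _ _).2, rfl,
        a1.trans_le (a2.trans (u1.trans hu2)), c1, c3 m, fun hm => ?_⟩⟩
      have hum : u ≤ m := hu2.trans (c1.trans hm)
      obtain ⟨r, r1, r2, r3⟩ := core S (m := m) (n := n') (u := u) (n' := u + 1 + 1) a1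
        (a2.trans u1) le_rfl hum
        (fun he => (hx' _).1 (Ev.mono' hW he le_rfl (hK.la_mono hB u1) le_rfl))
        (Ev.mono' hW u2 le_rfl le_rfl
          (c2.trans (hm.trans ((hK.le_la hB m).trans (hK.la_le_top hB m)))))
      exact pot_succ hP (fun r hr => RR_mono S (a2.trans (u1.trans hu2)) hr) r1 r2 r3
        ((hx' m).2 (u1.trans hum))) (Bq + 1)
  obtain ⟨x, hx⟩ := key
  obtain ⟨n', _, n, _, e, _⟩ := hx 0
  subst e
  obtain ⟨n1', _, n1, _, e, _, _, _, b⟩ := hx n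
  obtain ⟨e1, e2⟩ := pr_inj e
  exact absurd (pot_le hP (b (le_of_eq e2.symm))) (not_le_of_gt (lt1 Bq))

theorem sig1_of_hasSys (H : HasSys N) : Sig1 N := by
  constructor
  intro P hP
  obtain ⟨Q0, hQ, hPQ⟩ := hP
  have hP' : S1 (fun v => P (v 0)) := ⟨Q0, hQ, hPQ⟩
  let W : N.M → N.M → Prop := fun s z => ∃ s', s' < s + 1 ∧ Q0 (cons z (fun _ => (0 : N.M))) s'
  have hPW : ∀ z, P z ↔ ∃ s, W s z := by
    intro z
    have h1 := hPQ (cons z (fun _ => (0 : N.M)))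
    constructor
    · intro h
      obtain ⟨s, hs⟩ := h1.1 h
      exact ⟨s, s, lt1 s, hs⟩
    · rintro ⟨s, s', _, hs'⟩
      exact h1.2 ⟨s', hs'⟩
  have hW : Enum W := by
    constructor
    · refine D0.bex ((Tm.var 0).add Tm.one) ?_
      exact D0.comp (R := fun w => Q0 (tail w) (w 0)) hQ
        (g := fun w => cons (w 0) (cons (w 2) (fun _ => (0 : N.M))))
        (CM.cons (Tm.var 0) (CM.cons (Tm.var 2) (fun _ => Tm.zero)))
    · rintro s t z hst ⟨s', h1, h2⟩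
      exact ⟨s', lt_of_lt_of_le h1 (by gcongr), h2⟩
  obtain ⟨p2, top, la, md, V, h, Q, i, S⟩ := H W hW
  obtain ⟨n0, hn0⟩ := settled H S
  have hla := S.bin.hla
  have hh := S.blk.gf
  have hD : D1 (fun v : Ctx N => W (la (h (v 0 + n0 + 1))) (v 0)) := by
    (repeat' (first | assumption | refine D1.app2 (R := W) (D1.of hW.hW) ?_ ?_ | exact DG.var _ | refine DG.add ?_ ?_ | refine DG.mul ?_ ?_ | refine DG.pr ?_ ?_ | refine dg_el ?_ ?_ | exact DG.const _ | refine DG.app (by assumption) ?_ | refine dg_app2 (by assumption) ?_ ?_ | refine dg_ind ?_ | refine D1.and ?_ ?_ | refine D1.or ?_ ?_ | refine D1.ball ?_ ?_ | refine D1.bex ?_ ?_ | refine D1.iff ?_ ?_ | refine D1.imp ?_ ?_ | refine D1.not ?_ | refine D1.eq ?_ ?_ | refine D1.lt ?_ ?_ | refine D1.le ?_ ?_ | refine d1_dvd ?_ ?_ | refine D1.MemC ?_ ?_ | refine D1.mem ?_ (by assumption) | exact D1.const _))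
  have key : ∀ z, W (la (h (z + n0 + 1))) z ↔ P z := by
    intro z
    refine ⟨fun hz => (hPW z).2 ⟨_, hz⟩, fun hz => ?_⟩
    obtain ⟨s, hs⟩ := (hPW z).1 hz
    by_contra hc
    refine hn0 (z + n0) (le_add_of_nonneg_left (zero_le' _)) s ⟨z, lt1_of_le ?_, hs, hc⟩
    exact (le_add_of_nonneg_right (zero_le' n0)).trans
      ((S.blk.le_la S.bin _).trans (S.blk.la_le_top S.bin _))
  exact comp_D1 hP' (hD.2.congr fun v => not_congr (key _))

end Pool.Agent.H965Z.Thin
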