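import Mathlib
import Pool.Agent.H965Z.ThinHT.Main
import Pool.Agent.H965Z.ThinHT.Defs

namespace Pool.Agent.H965Z.Thin

open Pool.Agent.Helper617.RM Pool.Agent.H645R2.R

universe u

set_option linter.unusedSectionVars false
set_option linter.unusedVariables false
set_option linter.unusedTactic false
set_option linter.unreachableTactic false

variable {N : L2Structure.{u}} [IsModelRCA0 N]

theorem funIn_of_gf {f : N.M → N.M} (hf : GF f) : FunIn N f :=
  codeRel_mem_D0 (R := fun x y => y = f x) hf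

theorem gf_mono {f : N.M → N.M} (hf : GF f) (hs : ∀ n, f n ≤ f (n + 1)) {a b : N.M}
    (hab : a ≤ b) : f a ≤ f b := by
  obtain ⟨d, rfl⟩ := exists_sub hab
  clear hab
  refine ind_S1 (P := fun d => f a ≤ f (a + d)) (d1_s1 (by (repeat' (first | assumption | exact DG.var _ | refine DG.add ?_ ?_ | refine DG.mul ?_ ?_ | refine DG.pr ?_ ?_ | refine dg_el ?_ ?_ | exact DG.const _ | refine DG.app (by assumption) ?_ | refine dg_app2 (by assumption) ?_ ?_ | refine dg_ind ?_ | refine D1.and ?_ ?_ | refine D1.or ?_ ?_ | refine D1.ball ?_ ?_ | refine D1.bex ?_ ?_ | refine D1.iff ?_ ?_ | refine D1.imp ?_ ?_ | refine D1.not ?_ | refine D1.eq ?_ ?_ | refine D1.lt ?_ ?_ | refine D1.le ?_ ?_ | refine d1_dvd ?_ ?_ | refine D1.MemC ?_ ?_ | refine D1.mem ?_ (by assumption) | exact D1.const _)))) ?_ ?_ d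
  · rw [add_zero]
  · intro d ih
    rw [← add_assoc]
    exact ih.trans (hs _)

/-- two partial sums with the same remainder -/
theorem php {π : N.M → N.M} (hπ : GF π) (hunb : ∀ a, ∃ a', a < a' ∧ π a < π a') (β D : N.M)
    (hD : 0 < D) : ∃ α β' q, β ≤ α ∧ α ≤ β' ∧ 0 < q ∧ π β' = π α + D * q := by
  obtain ⟨md, hM⟩ := exists_md (N := N)
  have hmd := hM.gf
  obtain ⟨nx, hnx, hnxs⟩ := exists_least (N := N) (R := fun a a' => a < a' ∧ π a < π a')
    (by (repeat' (first | assumption | exact DG.var _ | refine DG.add ?_ ?_ | refine DG.mul ?_ ?_ | refine DG.pr ?_ ?_ | refine dg_el ?_ ?_ | exact DG.const _ | refine DG.app (by assumption) ?_ | refine dg_app2 (by assumption) ?_ ?_ | refine dg_ind ?_ | refine D1.and ?_ ?_ | refine D1.or ?_ ?_ | refine D1.ball ?_ ?_ | refine D1.bex ?_ ?_ | refine D1.iff ?_ ?_ | refine D1.imp ?_ ?_ | refine D1.not ?_ | refine D1.eq ?_ ?_ | refine D1.lt ?_ ?_ | refine D1.le ?_ ?_ | refine d1_dvd ?_ ?_ | refine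 D1.MemC ?_ ?_ | refine D1.mem ?_ (by assumption) | exact D1.const _))) hunb
  obtain ⟨f, hf', hf0, hfs⟩ := exists_recursion (G := nx) hnx β
  have hf : GF f := hf'
  obtain ⟨mq, Bq, hP⟩ := exists_potData D
  have hex : ∃ j, ∃ j', j' < j ∧ md D (π (f j')) = md D (π (f j)) := by
    by_contra hc
    push Not at hc
    have key : ∀ j, Pot D mq Bq (fun r => ∃ j', j' < j ∧ md D (π (f j')) = r) j := by
      intro j
      refine ind_S1 (P := fun j => Pot D mq Bq (fun r => ∃ j', j' < j ∧ md D (π (f j')) = r) j)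
        (d1_s1 ?_) (pot_zero _ _ _ _) ?_ j
      · unfold Pot
        (repeat' (first | assumption | exact DG.var _ | refine DG.add ?_ ?_ | refine DG.mul ?_ ?_ | refine DG.pr ?_ ?_ | refine dg_el ?_ ?_ | exact DG.const _ | refine DG.app (by assumption) ?_ | refine dg_app2 (by assumption) ?_ ?_ | refine dg_ind ?_ | refine D1.and ?_ ?_ | refine D1.or ?_ ?_ | refine D1.ball ?_ ?_ | refine D1.bex ?_ ?_ | refine D1.iff ?_ ?_ | refine D1.imp ?_ ?_ | refine D1.not ?_ | refine D1.eq ?_ ?_ | refine D1.lt ?_ ?_ | refine D1.le ?_ ?_ | refine d1_dvd ?_ ?_ | refine D1.MemC ?_ ?_ | refine D1.mem ?_ (by assumption) | exact D1.const _))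
      · intro j ih
        refine pot_succ hP (r0 := md D (π (f j))) ?_ (hM.lt _ _ hD) ⟨j, lt1 j, rfl⟩ ?_ ih
        · rintro r ⟨j', a1, a2⟩
          exact ⟨j', a1.trans (lt1 j), a2⟩
        · rintro ⟨j', a1, a2⟩
          exact hc j j' a1 a2
    exact absurd (pot_le hP (key (Bq + 1))) (not_le_of_gt (lt1 Bq))
  obtain ⟨j, j', h1, h2⟩ := hex
  have hfm : ∀ n, f n ≤ f (n + 1) := fun n => by rw [hfs]; exact (hnxs _).1.1.le
  have hπf : GF (fun n => π (f n)) := GF.of (by (repeat' (first | assumption | exact DG.var _ | refine DG.add ?_ ?_ | refine DG.mul ?_ ?_ | refine DG.pr ?_ ?_ | refine dg_el ?_ ?_ | exact DG.const _ | refine DG.app (by assumption) ?_ | refine dg_app2 (by assumption) ?_ ?_ | refine dg_ind ?_ | refine D1.and ?_ ?_ | refine D1.or ?_ ?_ | refine D1.ball ?_ ?_ | refine D1.bex ?_ ?_ | refine D1.iff ?_ ?_ | refine D1.imp ?_ ?_ | refine D1.not ?_ | refine D1.eq ?_ ?_ | refine D1.lt ?_ ?_ | refine D1.le ?_ ?_ | refine d1_dvd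 ?_ ?_ | refine D1.MemC ?_ ?_ | refine D1.mem ?_ (by assumption) | exact D1.const _)))
  have hlt : π (f j') < π (f j) := by
    have a1 : π (f j') < π (f (j' + 1)) := by rw [hfs]; exact (hnxs _).1.2
    refine a1.trans_le (gf_mono hπf (fun n => ?_) (succ_le' h1))
    show π (f n) ≤ π (f (n + 1))
    rw [hfs]; exact (hnxs _).1.2.le
  obtain ⟨d, hd⟩ := hM.ex D (π (f j)) hD
  obtain ⟨d', hd'⟩ := hM.ex D (π (f j')) hD
  have hdd : d' < d := by
    by_contra hc
    have : D * d ≤ D * d' := by have := not_lt.1 hc; have := hD.le; gcongr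
    rw [hd, hd', h2] at hlt
    exact absurd (lt_of_add_lt_add_right hlt) (not_lt_of_ge this)
  obtain ⟨e, he⟩ := (lt_iff_add'' _ _).1 hdd
  refine ⟨f j', f j, e + 1, ?_, gf_mono hf hfm h1.le, succ_pos' e, ?_⟩
  · rw [← hf0]; exact gf_mono hf hfm (zero_le' _)
  · calc π (f j) = D * d + md D (π (f j)) := hd
      _ = D * d' + md D (π (f j')) + D * (e + 1) := by rw [he, h2]; ring
      _ = _ := by rw [← hd']

theorem exists_blk {p2 top la : N.M → N.M} (hB : BinF p2 top la) {c : N.M → N.M}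
    {S : Set N.M} (hS : S ∈ N.Sets) (hinf : ¬ IsFin N S) {i : N.M}
    (hthin : ∀ s ∈ FS N S, c s ≠ i) : ∃ h Q, Blk p2 top la c h Q i := by
  have hp2 := hB.hp2
  have htop := hB.htop
  have hla := hB.hla
  obtain ⟨π, hπ, hπ0, hπs⟩ := prec1 (N := N) (fun n y => y + n * ind (n ∈ S))
    (by unfold GF2; (repeat' (first | assumption | exact DG.var _ | refine DG.add ?_ ?_ | refine DG.mul ?_ ?_ | refine DG.pr ?_ ?_ | refine dg_el ?_ ?_ | exact DG.const _ | refine DG.app (by assumption) ?_ | refine dg_app2 (by assumption) ?_ ?_ | refine dg_ind ?_ | refine D1.and ?_ ?_ | refine D1.or ?_ ?_ | refine D1.ball ?_ ?_ | refine D1.bex ?_ ?_ | refine D1.iff ?_ ?_ | refine D1.imp ?_ ?_ | refine D1.not ?_ | refine D1.eq ?_ ?_ | refine D1.lt ?_ ?_ | refine D1.le ?_ ?_ | refine d1_dvd ?_ ?_ | refine D1.MemC ?_ ?_ | refine D1.mem ?_ (by assumption) | exact D1.const _)))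
  have hπm : ∀ n, π n ≤ π (n + 1) := fun n => by
    rw [hπs]; exact le_add_of_nonneg_right (zero_le' _)
  have hunb : ∀ a, ∃ a', a < a' ∧ π a < π a' := by
    intro a
    have : ∃ x ∈ S, ¬ x < a + 1 := by
      by_contra hc
      push Not at hc
      exact hinf ⟨a + 1, hc⟩
    obtain ⟨x, hx, hxa⟩ := this
    have hax : a < x := lt_of_lt_of_le (lt1 a) (not_lt.1 hxa)
    refine ⟨x + 1, hax.trans (lt1 x), ?_⟩
    rw [hπs, ind_pos hx, mul_one]
    exact (gf_mono hπ hπm hax.le).trans_lt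
      (lt_add_of_pos_right _ (lt_of_le_of_lt (zero_le' a) hax))
  obtain ⟨nb, hnb, hnbs⟩ := exists_least (N := N) (R := fun β β' => ∃ α, α < β' + 1 ∧ (β ≤ α ∧
      ∃ q, q < π β' + 1 ∧ (0 < q ∧ π β' = π α + p2 (π β) * q))) (by (repeat' (first | assumption | exact DG.var _ | refine DG.add ?_ ?_ | refine DG.mul ?_ ?_ | refine DG.pr ?_ ?_ | refine dg_el ?_ ?_ | exact DG.const _ | refine DG.app (by assumption) ?_ | refine dg_app2 (by assumption) ?_ ?_ | refine dg_ind ?_ | refine D1.and ?_ ?_ | refine D1.or ?_ ?_ | refine D1.ball ?_ ?_ | refine D1.bex ?_ ?_ | refine D1.iff ?_ ?_ | refine D1.imp ?_ ?_ | refine D1.not ?_ | refine D1.eq ?_ ?_ | refine D1.lt ?_ ?_ | refine D1.le ?_ ?_ | refine d1_dvd ?_ ?_ | refine D1.MemC ?_ ?_ | refine D1.mem ?_ (by assumption) | exact D1.const _))) (by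
      intro β
      obtain ⟨α, β', q, a1, a2, a3, a4⟩ := php hπ hunb β _ (hB.p2_pos (π β))
      refine ⟨β', α, lt1_of_le a2, a1, q, lt1_of_le ?_, a3, a4⟩
      calc q = 1 * q := by ring
        _ ≤ p2 (π β) * q := by have := one_le_of_pos (hB.p2_pos (π β)); gcongr
        _ ≤ π α + p2 (π β) * q := le_add_of_nonneg_left (zero_le' _)
        _ = _ := a4.symm)
  obtain ⟨A, hA, hAs⟩ := exists_least (N := N) (R := fun β α => α < nb β + 1 ∧ (β ≤ α ∧
      ∃ q, q < π (nb β) + 1 ∧ (0 < q ∧ π (nb β) = π α + p2 (π β) * q))) (by (repeat' (first | assumption | exact DG.var _ | refine DG.add ?_ ?_ | refine DG.mul ?_ ?_ | refine DG.pr ?_ ?_ | refine dg_el ?_ ?_ | exact DG.const _ | refine DG.app (by assumption) ?_ | refine dg_app2 (by assumption) ?_ ?_ | refine dg_ind ?_ | refine D1.and ?_ ?_ | refine D1.or ?_ ?_ | refine D1.ball ?_ ?_ | refine D1.bex ?_ ?_ | refine D1.iff ?_ ?_ | refine D1.imp ?_ ?_ | refine D1.not ?_ | refine D1.eq ?_ ?_ | refine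 D1.lt ?_ ?_ | refine D1.le ?_ ?_ | refine d1_dvd ?_ ?_ | refine D1.MemC ?_ ?_ | refine D1.mem ?_ (by assumption) | exact D1.const _)))
      (fun β => (hnbs β).1)
  obtain ⟨b, hb', hb0, hbs⟩ := exists_recursion (G := nb) hnb 0
  have hb : GF b := hb'
  obtain ⟨h, hh, hhs⟩ := gf_of_rel (N := N) (R := fun n y => π (b (n + 1)) = π (A (b n)) + y)
    (by (repeat' (first | assumption | exact DG.var _ | refine DG.add ?_ ?_ | refine DG.mul ?_ ?_ | refine DG.pr ?_ ?_ | refine dg_el ?_ ?_ | exact DG.const _ | refine DG.app (by assumption) ?_ | refine dg_app2 (by assumption) ?_ ?_ | refine dg_ind ?_ | refine D1.and ?_ ?_ | refine D1.or ?_ ?_ | refine D1.ball ?_ ?_ | refine D1.bex ?_ ?_ | refine D1.iff ?_ ?_ | refine D1.imp ?_ ?_ | refine D1.not ?_ | refine D1.eq ?_ ?_ | refine D1.lt ?_ ?_ | refine D1.le ?_ ?_ | refine d1_dvd ?_ ?_ | refine D1.MemC ?_ ?_ | refine D1.mem ?_ (by assumption) | exact D1.const _))) (by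
      intro n
      obtain ⟨_, _, q, _, _, a⟩ := (hAs (b n)).1
      exact ⟨_, by rw [hbs]; exact a⟩) (by
      intro n y y' a1 a2
      exact add_left_cancel (a1.symm.trans a2))
  have hA1 : ∀ n, b n ≤ A (b n) := fun n => (hAs (b n)).1.2.1
  have hA2 : ∀ n, A (b n) ≤ b (n + 1) := fun n => by rw [hbs]; exact le_of_lt1 (hAs (b n)).1.1
  have hhq : ∀ n, ∃ q, 0 < q ∧ h n = p2 (π (b n)) * q := by
    intro n
    obtain ⟨_, _, q, _, a1, a⟩ := (hAs (b n)).1
    refine ⟨q, a1, ?_⟩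
    have := hhs n
    rw [hbs, a] at this
    exact (add_left_cancel this).symm
  have hpos : ∀ n, 0 < h n := fun n => by
    obtain ⟨q, a1, a2⟩ := hhq n
    rw [a2]; exact mul_pos (hB.p2_pos _) a1
  have hbm : ∀ n, b n ≤ b (n + 1) := fun n => (hA1 n).trans (hA2 n)
  obtain ⟨pd, hpd, hpdlt, hpds⟩ := exists_pd hB
  obtain ⟨Sm, hSm, hSm0, hSms⟩ := recur N pd (fun n y => y + h (top n)) 0 hpd (by (repeat' (first | assumption | exact DG.var _ | refine DG.add ?_ ?_ | refine DG.mul ?_ ?_ | refine DG.pr ?_ ?_ | refine dg_el ?_ ?_ | exact DG.const _ | refine DG.app (by assumption) ?_ | refine dg_app2 (by assumption) ?_ ?_ | refine dg_ind ?_ | refine D1.and ?_ ?_ | refine D1.or ?_ ?_ | refine D1.ball ?_ ?_ | refine D1.bex ?_ ?_ | refine D1.iff ?_ ?_ | refine D1.imp ?_ ?_ | refine D1.not ?_ | refine D1.eq ?_ ?_ | refine D1.lt ?_ ?_ | refine D1.le ?_ ?_ | refine d1_dvd ?_ ?_ | refine D1.MemC ?_ ?_ | refine D1.mem ?_ (by assumption) | exact D1.const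 _))) hpdlt
  have hSm1 : ∀ m j, m < p2 j → Sm (m + p2 j) = Sm m + h j := by
    intro m j hm
    rw [hSms _ (add_pos_of_nonneg_of_pos (zero_le' m) (hB.p2_pos j)), hpds m j hm,
      hB.top_add m j hm]
  obtain ⟨Sg, hSg, hSg0, hSgs⟩ := prec2 (N := N) (fun w n y => y + n * ind (MemC n w))
    (by (repeat' (first | assumption | exact DG.var _ | refine DG.add ?_ ?_ | refine DG.mul ?_ ?_ | refine DG.pr ?_ ?_ | refine dg_el ?_ ?_ | exact DG.const _ | refine DG.app (by assumption) ?_ | refine dg_app2 (by assumption) ?_ ?_ | refine dg_ind ?_ | refine D1.and ?_ ?_ | refine D1.or ?_ ?_ | refine D1.ball ?_ ?_ | refine D1.bex ?_ ?_ | refine D1.iff ?_ ?_ | refine D1.imp ?_ ?_ | refine D1.not ?_ | refine D1.eq ?_ ?_ | refine D1.lt ?_ ?_ | refine D1.le ?_ ?_ | refine d1_dvd ?_ ?_ | refine D1.MemC ?_ ?_ | refine D1.mem ?_ (by assumption) | exact D1.const _)))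
  have SgA : ∀ w e e', (∀ z, MemC z w → z < e) → e ≤ e' → Sg w e' = Sg w e := by
    intro w e e' a1 a2
    obtain ⟨d, rfl⟩ := exists_sub a2
    clear a2
    refine ind_S1 (P := fun d => Sg w (e + d) = Sg w e) (d1_s1 (by (repeat' (first | assumption | exact DG.var _ | refine DG.add ?_ ?_ | refine DG.mul ?_ ?_ | refine DG.pr ?_ ?_ | refine dg_el ?_ ?_ | exact DG.const _ | refine DG.app (by assumption) ?_ | refine dg_app2 (by assumption) ?_ ?_ | refine dg_ind ?_ | refine D1.and ?_ ?_ | refine D1.or ?_ ?_ | refine D1.ball ?_ ?_ | refine D1.bex ?_ ?_ | refine D1.iff ?_ ?_ | refine D1.imp ?_ ?_ | refine D1.not ?_ | refine D1.eq ?_ ?_ | refine D1.lt ?_ ?_ | refine D1.le ?_ ?_ | refine d1_dvd ?_ ?_ | refine D1.MemC ?_ ?_ | refine D1.mem ?_ (by assumption) | exact D1.const _)))) ?_ ?_ d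
    · rw [add_zero]
    · intro d ih
      rw [← add_assoc, hSgs, ind_neg, mul_zero, add_zero, ih]
      intro a3
      exact absurd (a1 _ a3) (not_lt_of_ge (le_add_of_nonneg_right (zero_le' _)))
  have SgB : ∀ w w' e, (∀ z, z < e → (MemC z w ↔ MemC z w')) → Sg w e = Sg w' e := by
    intro w w' e
    refine ind_S1 (P := fun e => (∀ z, z < e → (MemC z w ↔ MemC z w')) → Sg w e = Sg w' e)
      (d1_s1 (by (repeat' (first | assumption | exact DG.var _ | refine DG.add ?_ ?_ | refine DG.mul ?_ ?_ | refine DG.pr ?_ ?_ | refine dg_el ?_ ?_ | exact DG.const _ | refine DG.app (by assumption) ?_ | refine dg_app2 (by assumption) ?_ ?_ | refine dg_ind ?_ | refine D1.and ?_ ?_ | refine D1.or ?_ ?_ | refine D1.ball ?_ ?_ | refine D1.bex ?_ ?_ | refine D1.iff ?_ ?_ | refine D1.imp ?_ ?_ | refine D1.not ?_ | refine D1.eq ?_ ?_ | refine D1.lt ?_ ?_ | refine D1.le ?_ ?_ | refine d1_dvd ?_ ?_ | refine D1.MemC ?_ ?_ | refine D1.mem ?_ (by assumption)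 | exact D1.const _)))) ?_ ?_ e
    · intro _; rw [hSg0, hSg0]
    · intro e ih a1
      rw [hSgs, hSgs, ih (fun z hz => a1 z (hz.trans (lt1 e))), ind_congr (a1 e (lt1 e))]
  have SgC : ∀ w a d, (∀ z, z < a + d → a ≤ z → (MemC z w ↔ z ∈ S)) →
      Sg w (a + d) + π a = Sg w a + π (a + d) := by
    intro w a d
    refine ind_S1 (P := fun d => (∀ z, z < a + d → a ≤ z → (MemC z w ↔ z ∈ S)) →
      Sg w (a + d) + π a = Sg w a + π (a + d)) (d1_s1 (by (repeat' (first | assumption | exact DG.var _ | refine DG.add ?_ ?_ | refine DG.mul ?_ ?_ | refine DG.pr ?_ ?_ | refine dg_el ?_ ?_ | exact DG.const _ | refine DG.app (by assumption) ?_ | refine dg_app2 (by assumption) ?_ ?_ | refine dg_ind ?_ | refine D1.and ?_ ?_ | refine D1.or ?_ ?_ | refine D1.ball ?_ ?_ | refine D1.bex ?_ ?_ | refine D1.iff ?_ ?_ | refine D1.imp ?_ ?_ | refine D1.not ?_ | refine D1.eq ?_ ?_ | refine D1.lt ?_ ?_ | refine D1.le ?_ ?_ | refine d1_dvd ?_ ?_ | refine D1.MemC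 ?_ ?_ | refine D1.mem ?_ (by assumption) | exact D1.const _)))) ?_ ?_ d
    · intro _; rw [add_zero]
    · intro d ih a1
      rw [← add_assoc] at a1 ⊢
      rw [hSgs, hπs, ind_congr (a1 _ (lt1 _) (le_add_of_nonneg_right (zero_le' _))), add_right_comm,
        ih (fun z hz => a1 z (hz.trans (lt1 _)))]
      ring
  have key : ∀ u, ∃ w, ∃ e, (∀ z, z < w → MemC z w → (z ∈ S ∧ z < e)) ∧ (Sm u = Sg w e ∧
      ((u = 0 ∧ e = 0) ∨ (0 < u ∧ e = b (top u + 1)))) := by
    intro u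
    refine strong_S1 (P := fun u => ∃ w, ∃ e, (∀ z, z < w → MemC z w → (z ∈ S ∧ z < e)) ∧
      (Sm u = Sg w e ∧ ((u = 0 ∧ e = 0) ∨ (0 < u ∧ e = b (top u + 1))))) ?_ ?_ u
    · refine S1.ex (S1.ex (d1_s1 ?_))
      (repeat' (first | assumption | exact DG.var _ | refine DG.add ?_ ?_ | refine DG.mul ?_ ?_ | refine DG.pr ?_ ?_ | refine dg_el ?_ ?_ | exact DG.const _ | refine DG.app (by assumption) ?_ | refine dg_app2 (by assumption) ?_ ?_ | refine dg_ind ?_ | refine D1.and ?_ ?_ | refine D1.or ?_ ?_ | refine D1.ball ?_ ?_ | refine D1.bex ?_ ?_ | refine D1.iff ?_ ?_ | refine D1.imp ?_ ?_ | refine D1.not ?_ | refine D1.eq ?_ ?_ | refine D1.lt ?_ ?_ | refine D1.le ?_ ?_ | refine d1_dvd ?_ ?_ | refine D1.MemC ?_ ?_ | refine D1.mem ?_ (by assumption) | exact D1.const _))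
    · intro u ih
      by_cases hu : u = 0
      · refine ⟨0, 0, fun z hz => absurd hz (not_lt_of_ge (zero_le' z)), ?_, Or.inl ⟨hu, rfl⟩⟩
        rw [hu, hSm0, hSg0]
      have hu0 := Helper617.RM.pos_of_ne_zero hu
      have hdec : ∃ m j, m < p2 j ∧ u = m + p2 j := by
        rcases hB.dec u hu0 with a | ⟨m, _, a1, a2⟩
        · exact ⟨0, top u, hB.p2_pos _, by rw [zero_add]; exact a⟩
        · exact ⟨m, top u, a1, a2⟩
      obtain ⟨m, j, hm, rfl⟩ := hdec
      obtain ⟨w0, e0, a1, a2, a3⟩ := ih m (lt_add_of_pos_right _ (hB.p2_pos j))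
      have he0 : e0 ≤ A (b j) := by
        rcases a3 with ⟨_, a4⟩ | ⟨a4, a5⟩
        · rw [a4]; exact zero_le' _
        · rw [a5]
          exact (gf_mono hb hbm (succ_le' (top_lt_of_lt hB a4 hm))).trans (hA1 j)
      obtain ⟨w, _, hw⟩ := exists_isC
        (P := fun z => MemC z w0 ∨ (z ∈ S ∧ (A (b j) ≤ z ∧ z < b (j + 1))))
        (D0.or (MemC_D0 (Tm.var 0) (Tm.const w0)) (D0.and (D0.mem (Tm.var 0) hS)
          (D0.and (D0.le (Tm.const _) (Tm.var 0)) (D0.lt (Tm.var 0) (Tm.const _)))))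
        (b := w0 + b (j + 1)) (by
          rintro r (hr | ⟨_, _, hr⟩)
          · exact lt_of_lt_of_le hr.lt (le_add_of_nonneg_right (zero_le' _))
          · exact lt_of_lt_of_le hr (le_add_of_nonneg_left (zero_le' _)))
      refine ⟨w, b (j + 1), fun z _ hz => ?_, ?_, Or.inr ⟨hu0, by rw [hB.top_add m j hm]⟩⟩
      · rcases (hw z).1 hz with c | ⟨c1, _, c2⟩
        · exact ⟨(a1 z c.lt c).1, (a1 z c.lt c).2.trans_le (he0.trans (hA2 j))⟩
        · exact ⟨c1, c2⟩
      · obtain ⟨d, hd⟩ := exists_sub (hA2 j)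
        have c1 := SgC w (A (b j)) d (fun z z1 z2 => by
          rw [hw]
          constructor
          · rintro (c | c)
            · exact (a1 z c.lt c).1
            · exact c.1
          · intro c
            exact Or.inr ⟨c, z2, by rw [hd]; exact z1⟩)
        have c2 : Sg w (A (b j)) = Sg w0 (A (b j)) := SgB _ _ _ fun z z1 => by
          rw [hw]
          exact ⟨fun c => c.elim id fun c => absurd z1 (not_lt_of_ge c.2.1), Or.inl⟩
        have c3 : Sg w0 (A (b j)) = Sg w0 e0 := SgA _ _ _ (fun z c => (a1 z c.lt c).2) he0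
        rw [← hd, c2, c3, ← a2, hhs j] at c1
        rw [hSm1 m j hm]
        refine add_cancel' (c := π (A (b j))) ?_
        rw [c1]; ring
  refine ⟨h, fun n x => ∃ u, u < p2 n ∧ (0 < u ∧ x = Sm u), hh, by (repeat' (first | assumption | exact DG.var _ | refine DG.add ?_ ?_ | refine DG.mul ?_ ?_ | refine DG.pr ?_ ?_ | refine dg_el ?_ ?_ | exact DG.const _ | refine DG.app (by assumption) ?_ | refine dg_app2 (by assumption) ?_ ?_ | refine dg_ind ?_ | refine D1.and ?_ ?_ | refine D1.or ?_ ?_ | refine D1.ball ?_ ?_ | refine D1.bex ?_ ?_ | refine D1.iff ?_ ?_ | refine D1.imp ?_ ?_ | refine D1.not ?_ | refine D1.eq ?_ ?_ | refine D1.lt ?_ ?_ | refine D1.le ?_ ?_ | refine d1_dvd ?_ ?_ | refine D1.MemC ?_ ?_ | refine D1.mem ?_ (by assumption) | exact D1.const _)), hpos, fun n => ?_,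
    fun m => ?_, ?_, ?_, ?_⟩
  · obtain ⟨q, a1, a2⟩ := hhq (n + 1)
    have a3 : π (b (n + 1)) ≤ la (h (n + 1)) := by rw [a2]; exact hB.le_la _ q a1
    refine (top_lt_self hB (hpos n)).trans_le (le_trans ?_ a3)
    rw [hhs n]; exact le_add_of_nonneg_left (zero_le' _)
  · refine ⟨p2 m, hB.p2_lt _ _ (lt1 m), hB.p2_pos m, ?_⟩
    have := hSm1 0 m (hB.p2_pos m)
    rw [zero_add, hSm0, zero_add] at this
    exact this.symm
  · rintro n x m ⟨u, a1, a2, rfl⟩ hnm
    have a3 : u < p2 m := a1.trans_le (p2_mono hB hnm)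
    refine ⟨u + p2 m, ?_, add_pos a2 (hB.p2_pos m), (hSm1 u m a3).symm⟩
    rw [hB.p2_succ]; gcongr
  · rintro n n' x ⟨u, a1, a2⟩ hn
    exact ⟨u, a1.trans_le (p2_mono hB hn), a2⟩
  · rintro n x ⟨u, _, a2, rfl⟩
    obtain ⟨w, e, b1, b2, _⟩ := key u
    have hSmpos : 0 < Sm u := by
      rw [hSms u a2]
      exact add_pos_of_nonneg_of_pos (zero_le' _) (hpos _)
    refine hthin _ ⟨{z | MemC z w}, comp_D0 (P := fun z => MemC z w)
      (MemC_D0 (Tm.var 0) (Tm.const w)), ?_, fun z hz => (b1 z (MemC.lt hz) hz).1, Sg w,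
      funIn_of_gf (GF.of (by (repeat' (first | assumption | exact DG.var _ | refine DG.add ?_ ?_ | refine DG.mul ?_ ?_ | refine DG.pr ?_ ?_ | refine dg_el ?_ ?_ | exact DG.const _ | refine DG.app (by assumption) ?_ | refine dg_app2 (by assumption) ?_ ?_ | refine dg_ind ?_ | refine D1.and ?_ ?_ | refine D1.or ?_ ?_ | refine D1.ball ?_ ?_ | refine D1.bex ?_ ?_ | refine D1.iff ?_ ?_ | refine D1.imp ?_ ?_ | refine D1.not ?_ | refine D1.eq ?_ ?_ | refine D1.lt ?_ ?_ | refine D1.le ?_ ?_ | refine d1_dvd ?_ ?_ | refine D1.MemC ?_ ?_ | refine D1.mem ?_ (by assumption) | exact D1.const _)))), hSg0 w, fun z hz => ?_, fun z hz => ?_, e,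
      fun z hz => (b1 z (MemC.lt hz) hz).2, b2⟩
    · by_contra hc
      rw [Set.not_nonempty_iff_eq_empty] at hc
      have c1 := SgA w 0 e (fun z hz => by
        have : z ∈ ({z | MemC z w} : Set N.M) := hz
        rw [hc] at this
        exact this.elim) (zero_le' e)
      rw [hSg0, ← b2] at c1
      exact absurd c1 hSmpos.ne'
    · show Sg w (z + 1) = Sg w z + z
      rw [hSgs, ind_pos (show MemC z w from hz), mul_one]
    · show Sg w (z + 1) = Sg w z
      rw [hSgs, ind_neg (show ¬ MemC z w from hz), mul_zero, add_zero]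

theorem hasSys_of_thinHT (H : ThinHT N) : HasSys N := by
  intro W hW
  obtain ⟨p2, top, la, hB0⟩ := bin N
  have hB : BinF p2 top la := binf N p2 top la (binp N p2 top la hB0)
  obtain ⟨md, hM⟩ := exists_md (N := N)
  obtain ⟨V, hV⟩ := exists_V hB hW
  have hmd := hM.gf
  have hVg := hV.gf
  have htop := hB.htop
  have hla := hB.hla
  obtain ⟨S, hS, hinf, i, hthin⟩ := H (fun x => md (la x + 1) (V (top x) x))
    (funIn_of_gf (GF.of (by (repeat' (first | assumption | exact DG.var _ | refine DG.add ?_ ?_ | refine DG.mul ?_ ?_ | refine DG.pr ?_ ?_ | refine dg_el ?_ ?_ | exact DG.const _ | refine DG.app (by assumption) ?_ | refine dg_app2 (by assumption) ?_ ?_ | refine dg_ind ?_ | refine D1.and ?_ ?_ | refine D1.or ?_ ?_ | refine D1.ball ?_ ?_ | refine D1.bex ?_ ?_ | refine D1.iff ?_ ?_ | refine D1.imp ?_ ?_ | refine D1.not ?_ | refine D1.eq ?_ ?_ | refine D1.lt ?_ ?_ | refine D1.le ?_ ?_ | refine d1_dvd ?_ ?_ | refine D1.MemC ?_ ?_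 | refine D1.mem ?_ (by assumption) | exact D1.const _)))))
  obtain ⟨h, Q, hK⟩ := exists_blk hB hS hinf hthin
  exact ⟨p2, top, la, md, V, h, Q, i, hB, hM, hW, hV, hK⟩

theorem arithComp_of_thinHT (H : ThinHT N) : ArithComp N := by
  have := sig1_of_hasSys (hasSys_of_thinHT H)
  exact arithComp_of_sig1

end Pool.Agent.H965Z.Thin
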